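import Pool.Agent.N287.HS.Defs
import Pool.Agent.Helper853.Bk.Scv
import Pool.Agent.Helper853.Bk.Bergman

set_option autoImplicit false

/-! The Bergman space of an open set is closed. -/

namespace Pool.Agent.N287.HS

open MeasureTheory Filter Topology ComplexConjugate Metric
open scoped InnerProductSpace
open Pool.Agent.Helper853.Bk

variable {n : ℕ}

lemma norm_sq_L2 {Ω : Set (Fin n → ℂ)} (h : L2 Ω) :
    ENNReal.ofReal (‖h‖ ^ 2) = ∫⁻ w in Ω, ENNReal.ofReal (‖h w‖ ^ 2) := by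
  have hint : Integrable (fun w => ‖h w‖ ^ 2) (volume.restrict Ω) :=
    (memLp_two_iff_integrable_sq_norm (Lp.memLp h).1).mp (Lp.memLp h)
  rw [← ofReal_integral_eq_lintegral_ofReal hint
    (Filter.Eventually.of_forall fun w => by positivity)]
  congr 1
  have h5 := inner_self_eq_norm_sq_to_K (𝕜 := ℂ) h
  rw [L2.inner_def] at h5
  have h6 : ∫ w in Ω, ⟪h w, h w⟫_ℂ = ((∫ w in Ω, ‖h w‖ ^ 2 : ℝ) : ℂ) := by
    rw [← integral_complex_ofReal]
    refine integral_congr_ae (Filter.Eventually.of_forall fun w => ?_)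
    simp only
    rw [inner_self_eq_norm_sq_to_K]
    push_cast
    rfl
  rw [h6] at h5
  have h7 : ((∫ w in Ω, ‖h w‖ ^ 2 : ℝ) : ℂ) = ((‖h‖ ^ 2 : ℝ) : ℂ) := by
    rw [h5]; push_cast; rfl
  exact (Complex.ofReal_injective h7).symm

lemma point_bound {Ω : Set (Fin n → ℂ)} {z : Fin n → ℂ} {r : ℝ} (hr : 0 < r)
    (hz : closedBall z r ⊆ Ω) {H : (Fin n → ℂ) → ℂ} (hH : DifferentiableOn ℂ H Ω) {h : L2 Ω}
    (hh : h =ᵐ[volume.restrict Ω] H) {w : Fin n → ℂ} (hw : w ∈ ball z (r / 2)) :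
    ‖H w‖ ^ 2 ≤ ‖h‖ ^ 2 / (volume (closedBall (0 : Fin n → ℂ) (r / 2))).toReal := by
  have hsub : closedBall w (r / 2) ⊆ Ω := by
    refine Set.Subset.trans (closedBall_subset_closedBall' ?_) hz
    have := mem_ball.mp hw
    linarith
  have h1 := bergman_ineq hH hsub
  rw [Measure.addHaar_closedBall_center] at h1
  have h2 : ∫⁻ v in closedBall w (r / 2), ENNReal.ofReal (‖H v‖ ^ 2) ≤
      ENNReal.ofReal (‖h‖ ^ 2) := by
    rw [norm_sq_L2]
    have h3 : ∫⁻ v in Ω, ENNReal.ofReal (‖h v‖ ^ 2) = ∫⁻ v in Ω, ENNReal.ofReal (‖H v‖ ^ 2) := by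
      refine lintegral_congr_ae ?_
      filter_upwards [hh] with v hv
      rw [hv]
    rw [h3]
    exact lintegral_mono_set hsub
  have h3 := h1.trans h2
  set V := volume (closedBall (0 : Fin n → ℂ) (r / 2)) with hV
  have hV0 : 0 < V := measure_closedBall_pos _ _ (by positivity)
  have hVt : V ≠ ⊤ := measure_closedBall_lt_top.ne
  have h4 : 0 < V.toReal := ENNReal.toReal_pos hV0.ne' hVt
  rw [le_div_iff₀ h4]
  have h5 := ENNReal.toReal_mono ENNReal.ofReal_ne_top h3
  rwa [ENNReal.toReal_mul, ENNReal.toReal_ofReal (by positivity),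
    ENNReal.toReal_ofReal (by positivity)] at h5

/-- The Bergman space is closed in `L²(Ω)`. -/
theorem isClosed_bergman {Ω : Set (Fin n → ℂ)} (hΩ : IsOpen Ω) :
    IsClosed (bergman Ω : Set (L2 Ω)) := by
  refine IsSeqClosed.isClosed ?_
  intro x g hx hlim
  choose G hG hxG using hx
  have hdiff : ∀ k l, (x k - x l : L2 Ω) =ᵐ[volume.restrict Ω] fun w => G k w - G l w := by
    intro k l
    filter_upwards [hxG k, hxG l, Lp.coeFn_sub (x k) (x l)] with w h1 h2 h3
    rw [h3, Pi.sub_apply, h1, h2]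
  -- pointwise convergence
  have hpt : ∀ z ∈ Ω, ∃ l, Tendsto (fun k => G k z) atTop (𝓝 l) := by
    intro z hz
    obtain ⟨r, hr, hrΩ⟩ := Metric.nhds_basis_closedBall.mem_iff.mp (hΩ.mem_nhds hz)
    set V := (volume (closedBall (0 : Fin n → ℂ) (r / 2))).toReal with hV
    have hV0 : 0 < V := ENNReal.toReal_pos (measure_closedBall_pos _ _ (by positivity)).ne'
      measure_closedBall_lt_top.ne
    apply cauchySeq_tendsto_of_complete
    have hcx := hlim.cauchySeq
    rw [Metric.cauchySeq_iff] at hcx ⊢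
    intro ε hε
    obtain ⟨N, hN⟩ := hcx (ε * √V) (by positivity)
    refine ⟨N, fun k hk l hl => ?_⟩
    have h1 := point_bound hr hrΩ ((hG k).sub (hG l)) (hdiff k l)
      (mem_ball_self (by positivity : 0 < r / 2))
    have h2 := hN k hk l hl
    rw [dist_eq_norm] at h2 ⊢
    have h3 : ‖x k - x l‖ ^ 2 < (ε * √V) ^ 2 := by gcongr
    rw [mul_pow, Real.sq_sqrt hV0.le] at h3
    have h4 : ‖G k z - G l z‖ ^ 2 < ε ^ 2 := by
      refine lt_of_le_of_lt h1 ?_
      rw [div_lt_iff₀ hV0]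
      exact h3
    exact lt_of_pow_lt_pow_left₀ 2 hε.le h4
  set g0 : (Fin n → ℂ) → ℂ := fun z => limUnder atTop fun k => G k z with hg0
  have hg0lim : ∀ z ∈ Ω, Tendsto (fun k => G k z) atTop (𝓝 (g0 z)) := by
    intro z hz
    obtain ⟨l, hl⟩ := hpt z hz
    exact tendsto_nhds_limUnder ⟨l, hl⟩
  refine ⟨g0, ?_, ?_⟩
  · intro z hz
    obtain ⟨r, hr, hrΩ⟩ := Metric.nhds_basis_closedBall.mem_iff.mp (hΩ.mem_nhds hz)
    set V := (volume (closedBall (0 : Fin n → ℂ) (r / 2))).toReal with hV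
    have hV0 : 0 < V := ENNReal.toReal_pos (measure_closedBall_pos _ _ (by positivity)).ne'
      measure_closedBall_lt_top.ne
    have hsub : ball z (r / 2) ⊆ Ω :=
      (ball_subset_closedBall.trans (closedBall_subset_closedBall (by linarith))).trans hrΩ
    have hbdd : ∀ᶠ k in atTop, ‖x k‖ ≤ ‖g‖ + 1 := by
      have h1 := hlim.norm
      filter_upwards [h1.eventually_lt_const (lt_add_one ‖g‖)] with k hk
      exact hk.le
    refine (differentiableAt_of_tendsto (G := G) (r := r / 2)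
      (M := √((‖g‖ + 1) ^ 2 / V)) (by positivity) ?_ fun w hw =>
        hg0lim w (hsub hw)).differentiableWithinAt
    filter_upwards [hbdd] with k hk
    refine ⟨(hG k).mono hsub, fun w hw => ?_⟩
    refine Real.le_sqrt_of_sq_le ?_
    refine (point_bound hr hrΩ (hG k) (hxG k) hw).trans ?_
    gcongr
  · have h1 : TendstoInMeasure (volume.restrict Ω) (fun k => (x k : (Fin n → ℂ) → ℂ)) atTop g :=
      tendstoInMeasure_of_tendsto_Lp hlim
    obtain ⟨φ, hφ, hae⟩ := h1.exists_seq_tendsto_ae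
    have h2 : ∀ᵐ z ∂(volume.restrict Ω), ∀ k, x k z = G k z := ae_all_iff.mpr hxG
    filter_upwards [hae, h2, ae_restrict_mem hΩ.measurableSet] with z h3 h4 h5
    have h6 := (hg0lim z h5).comp hφ.tendsto_atTop
    refine tendsto_nhds_unique h3 ?_
    refine h6.congr fun k => ?_
    exact (h4 (φ k)).symm

end Pool.Agent.N287.HS
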