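import Mathlib

set_option autoImplicit false

/-! # Hankel operators on Bergman spaces, on the level of functions -/

namespace Pool.Agent.N287.HSE

open MeasureTheory ComplexConjugate

variable {n : ℕ}

/-- `Ω ⊆ ℂⁿ` is a Reinhardt set: it is invariant under the rotations
`(z_1, …, z_n) ↦ (e^{iθ_1} z_1, …, e^{iθ_n} z_n)`, `θ_j` real. -/
def IsReinhardt (Ω : Set (Fin n → ℂ)) : Prop :=
  ∀ z ∈ Ω, ∀ θ : Fin n → ℝ, (fun j => Complex.exp (Complex.I * θ j) * z j) ∈ Ω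

/-- `g ∈ L²(Ω)`, Lebesgue measure. -/
def InL2 (Ω : Set (Fin n → ℂ)) (g : (Fin n → ℂ) → ℂ) : Prop :=
  MemLp g 2 (volume.restrict Ω)

/-- `g ∈ A²(Ω)`, the Bergman space: `g` is holomorphic on `Ω` and square integrable on `Ω`. -/
def InA2 (Ω : Set (Fin n → ℂ)) (g : (Fin n → ℂ) → ℂ) : Prop :=
  DifferentiableOn ℂ g Ω ∧ InL2 Ω g

/-- The inner product `∫_Ω \bar u v` of `L²(Ω)`. -/
noncomputable def ip (Ω : Set (Fin n → ℂ)) (u v : (Fin n → ℂ) → ℂ) : ℂ :=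
  ∫ z in Ω, conj (u z) * v z

/-- The squared norm `∫_Ω |u|²` of `L²(Ω)`. -/
noncomputable def nsq (Ω : Set (Fin n → ℂ)) (u : (Fin n → ℂ) → ℂ) : ℝ :=
  ∫ z in Ω, ‖u z‖ ^ 2

/-- `h = H_φ g = (I - P)(φ g)`, where `P` is the Bergman projection: `g ∈ A²(Ω)`, `φ g ∈ L²(Ω)` and
`φ g = p + h` on `Ω` with `p ∈ A²(Ω)` and with `h ∈ L²(Ω)` orthogonal to `A²(Ω)`. -/
def IsHankel (Ω : Set (Fin n → ℂ)) (φ g h : (Fin n → ℂ) → ℂ) : Prop :=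
  InA2 Ω g ∧ InL2 Ω (fun z => φ z * g z) ∧ InL2 Ω h ∧
    (∃ p, InA2 Ω p ∧ ∀ z ∈ Ω, φ z * g z = p z + h z) ∧ ∀ q, InA2 Ω q → ip Ω q h = 0

/-- `T` represents a bounded linear operator `A²(Ω) → L²(Ω)` (functions in `L²(Ω)` which agree almost
everywhere on `Ω` are identified). -/
def IsBoundedLinear (Ω : Set (Fin n → ℂ)) (T : ((Fin n → ℂ) → ℂ) → (Fin n → ℂ) → ℂ) : Prop :=
  (∀ g, InA2 Ω g → InL2 Ω (T g)) ∧
  (∀ g h, InA2 Ω g → InA2 Ω h → ∀ a : ℂ,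
    ∀ᵐ z ∂(volume.restrict Ω), T (fun w => a * g w + h w) z = a * T g z + T h z) ∧
  ∃ C : ℝ, ∀ g, InA2 Ω g → nsq Ω (T g) ≤ C * nsq Ω g

/-- `(e_k)` is an orthonormal basis of the Hilbert space `A²(Ω)`: it is orthonormal, and only the
zero element of `A²(Ω)` is orthogonal to all `e_k`. -/
def IsOrthonormalBasis (Ω : Set (Fin n → ℂ)) {ι : Type} (e : ι → (Fin n → ℂ) → ℂ) : Prop :=
  (∀ k, InA2 Ω (e k)) ∧ (∀ k, ip Ω (e k) (e k) = 1) ∧ (∀ k l, k ≠ l → ip Ω (e k) (e l) = 0) ∧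
    ∀ g, InA2 Ω g → (∀ k, ip Ω (e k) g = 0) → ∀ z ∈ Ω, g z = 0

/-- The Hankel operator `H_φ` is Hilbert-Schmidt: its domain `{g ∈ A²(Ω) : φ g ∈ L²(Ω)}` is dense
in `A²(Ω)`, and `H_φ` extends to a bounded linear operator `T : A²(Ω) → L²(Ω)` with
`∑ ‖T e_k‖² < ∞` for some orthonormal basis `(e_k)` of `A²(Ω)`. -/
def IsHilbertSchmidtHankel (Ω : Set (Fin n → ℂ)) (φ : (Fin n → ℂ) → ℂ) : Prop :=
  (∀ g, InA2 Ω g → ∀ ε : ℝ, 0 < ε → ∃ g', InA2 Ω g' ∧ InL2 Ω (fun z => φ z * g' z) ∧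
    nsq Ω (fun z => g z - g' z) < ε) ∧
  ∃ T : ((Fin n → ℂ) → ℂ) → (Fin n → ℂ) → ℂ, IsBoundedLinear Ω T ∧
    (∀ g h, IsHankel Ω φ g h → ∀ᵐ z ∂(volume.restrict Ω), T g z = h z) ∧
    ∃ (ι : Type) (e : ι → (Fin n → ℂ) → ℂ), IsOrthonormalBasis Ω e ∧
      Summable fun k => nsq Ω (T (e k))

end Pool.Agent.N287.HSE
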