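import Pool.Agent.N287.HS.Main5
import Pool.Agent.N287.HS.Closed
import Pool.Agent.N287.HS.ElemDefs

set_option autoImplicit false

/-! From the function level to operators between Hilbert spaces. -/

namespace Pool.Agent.N287.HSE

open MeasureTheory Filter Topology ComplexConjugate Metric
open scoped InnerProductSpace
open Pool.Agent.N287.HS (bergman L2 hankelDom hankel bergmanProj inner_toLp)

variable {n : ℕ} {Ω : Set (Fin n → ℂ)}

/-- a holomorphic representative -/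
noncomputable def rep (g : bergman Ω) : (Fin n → ℂ) → ℂ := g.2.choose

lemma rep_ae (g : bergman Ω) : (g : L2 Ω) =ᵐ[volume.restrict Ω] rep g := g.2.choose_spec.2

lemma rep_InA2 (g : bergman Ω) : InA2 Ω (rep g) :=
  ⟨g.2.choose_spec.1, (memLp_congr_ae (rep_ae g)).mp (Lp.memLp (g : L2 Ω))⟩

/-- the class of a function in the Bergman space -/
noncomputable def cl {g : (Fin n → ℂ) → ℂ} (hg : InA2 Ω g) : bergman Ω :=
  ⟨MemLp.toLp g hg.2, g, hg.1, MemLp.coeFn_toLp hg.2⟩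

lemma cl_ae {g : (Fin n → ℂ) → ℂ} (hg : InA2 Ω g) : (cl hg : L2 Ω) =ᵐ[volume.restrict Ω] g :=
  MemLp.coeFn_toLp hg.2

lemma cl_rep (g : bergman Ω) : cl (rep_InA2 g) = g := by
  apply Subtype.ext
  apply Lp.ext
  exact (cl_ae _).trans (rep_ae g).symm

lemma inner_L2 (u v : L2 Ω) : ⟪u, v⟫_ℂ = ip Ω u v := by
  rw [L2.inner_def]
  refine integral_congr_ae (Filter.Eventually.of_forall fun z => ?_)
  simp only
  rw [RCLike.inner_apply, mul_comm]

lemma norm_sq_eq (u : L2 Ω) : ‖u‖ ^ 2 = nsq Ω u := by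
  have h5 := inner_self_eq_norm_sq_to_K (𝕜 := ℂ) u
  rw [inner_L2] at h5
  have h6 : ip Ω u u = ((nsq Ω u : ℝ) : ℂ) := by
    rw [nsq, ip, ← integral_complex_ofReal]
    refine integral_congr_ae (Filter.Eventually.of_forall fun z => ?_)
    simp only
    rw [← Complex.normSq_eq_conj_mul_self, Complex.normSq_eq_norm_sq]
  rw [h6] at h5
  have h7 : ((nsq Ω u : ℝ) : ℂ) = ((‖u‖ ^ 2 : ℝ) : ℂ) := by
    rw [h5]; push_cast; rfl
  exact (Complex.ofReal_injective h7).symm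

lemma ip_congr {u u' v v' : (Fin n → ℂ) → ℂ} (h1 : u =ᵐ[volume.restrict Ω] u')
    (h2 : v =ᵐ[volume.restrict Ω] v') : ip Ω u v = ip Ω u' v' := by
  refine integral_congr_ae ?_
  filter_upwards [h1, h2] with z h1 h2
  rw [h1, h2]

lemma nsq_congr {u u' : (Fin n → ℂ) → ℂ} (h1 : u =ᵐ[volume.restrict Ω] u') :
    nsq Ω u = nsq Ω u' := by
  refine integral_congr_ae ?_
  filter_upwards [h1] with z h1
  rw [h1]

lemma InA2.comb {g h : (Fin n → ℂ) → ℂ} (hg : InA2 Ω g) (hh : InA2 Ω h) (a : ℂ) :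
    InA2 Ω fun w => a * g w + h w :=
  ⟨(hg.1.const_mul a).fun_add hh.1, (hg.2.const_mul a).add hh.2⟩

lemma ae_zero_of_nsq {u : (Fin n → ℂ) → ℂ} (hu : InL2 Ω u) (h : nsq Ω u ≤ 0) :
    u =ᵐ[volume.restrict Ω] 0 := by
  have hint : Integrable (fun w => ‖u w‖ ^ 2) (volume.restrict Ω) :=
    (memLp_two_iff_integrable_sq_norm hu.1).mp hu
  have h0 : nsq Ω u = 0 := le_antisymm h (integral_nonneg fun z => by positivity)
  rw [nsq, integral_eq_zero_iff_of_nonneg (fun z => by positivity) hint] at h0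
  filter_upwards [h0] with z hz
  simpa using hz

variable {T0 : ((Fin n → ℂ) → ℂ) → (Fin n → ℂ) → ℂ}

lemma T0_congr (hT : IsBoundedLinear Ω T0) {g h : (Fin n → ℂ) → ℂ} (hg : InA2 Ω g)
    (hh : InA2 Ω h) (he : g =ᵐ[volume.restrict Ω] h) :
    T0 g =ᵐ[volume.restrict Ω] T0 h := by
  obtain ⟨h1, h2, C, hC⟩ := hT
  have h3 := h2 h g hh hg (-1)
  have hA := hh.comb hg (-1)
  have h4 := hC _ hA
  have h5 : nsq Ω (fun w => (-1 : ℂ) * h w + g w) = 0 := by
    have : nsq Ω (fun w => (-1 : ℂ) * h w + g w) = nsq Ω (0 : (Fin n → ℂ) → ℂ) := by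
      refine nsq_congr ?_
      filter_upwards [he] with z hz
      simp [hz]
    rw [this]
    simp [nsq]
  rw [h5, mul_zero] at h4
  have h6 := ae_zero_of_nsq (h1 _ hA) h4
  filter_upwards [h3, h6] with z h3 h6
  rw [h3] at h6
  simp only [Pi.zero_apply] at h6
  linear_combination h6

/-- the operator between Hilbert spaces -/
noncomputable def opL (hT : IsBoundedLinear Ω T0) : bergman Ω →ₗ[ℂ] L2 Ω where
  toFun g := MemLp.toLp (T0 (rep g)) (hT.1 _ (rep_InA2 g))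
  map_add' g h := by
    apply Lp.ext
    have e1 := T0_congr hT (rep_InA2 (g + h)) ((rep_InA2 g).comb (rep_InA2 h) 1) (by
      filter_upwards [rep_ae (g + h), rep_ae g, rep_ae h, Lp.coeFn_add (g : L2 Ω) (h : L2 Ω)]
        with z h1 h2 h3 h4
      rw [← h1, ← h2, ← h3, one_mul]
      exact h4)
    filter_upwards [e1, hT.2.1 _ _ (rep_InA2 g) (rep_InA2 h) 1,
      MemLp.coeFn_toLp (hT.1 _ (rep_InA2 (g + h))), MemLp.coeFn_toLp (hT.1 _ (rep_InA2 g)),
      MemLp.coeFn_toLp (hT.1 _ (rep_InA2 h)),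
      Lp.coeFn_add (MemLp.toLp (T0 (rep g)) (hT.1 _ (rep_InA2 g)))
        (MemLp.toLp (T0 (rep h)) (hT.1 _ (rep_InA2 h)))] with z h1 h2 h3 h4 h5 h6
    rw [h3, h1, h2, h6, Pi.add_apply, h4, h5, one_mul]
  map_smul' a g := by
    apply Lp.ext
    have hz : InA2 Ω (fun _ => (0 : ℂ)) := ⟨differentiableOn_const _, MemLp.zero⟩
    have e1 := T0_congr hT (rep_InA2 (a • g)) ((rep_InA2 g).comb hz a) (by
      filter_upwards [rep_ae (a • g), rep_ae g, Lp.coeFn_smul a (g : L2 Ω)] with z h1 h2 h4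
      rw [← h1, ← h2, add_zero]
      exact h4)
    have e2 : T0 (fun _ => (0 : ℂ)) =ᵐ[volume.restrict Ω] 0 := by
      obtain ⟨h1, h2, C, hC⟩ := hT
      have h4 := hC _ hz
      have h5 : nsq Ω (fun _ => (0 : ℂ)) = 0 := by simp [nsq]
      rw [h5, mul_zero] at h4
      exact ae_zero_of_nsq (h1 _ hz) h4
    filter_upwards [e1, e2, hT.2.1 _ _ (rep_InA2 g) hz a,
      MemLp.coeFn_toLp (hT.1 _ (rep_InA2 (a • g))), MemLp.coeFn_toLp (hT.1 _ (rep_InA2 g)),
      Lp.coeFn_smul a (MemLp.toLp (T0 (rep g)) (hT.1 _ (rep_InA2 g)))] with z h1 h2 h3 h4 h5 h6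
    rw [h4, h1, h3, h2, RingHom.id_apply, h6, Pi.smul_apply, h5, Pi.zero_apply, add_zero,
      smul_eq_mul]

lemma opL_ae (hT : IsBoundedLinear Ω T0) (g : bergman Ω) :
    (opL hT g : L2 Ω) =ᵐ[volume.restrict Ω] T0 (rep g) :=
  MemLp.coeFn_toLp (hT.1 _ (rep_InA2 g))

lemma opL_bound (hT : IsBoundedLinear Ω T0) : ∃ C : ℝ, ∀ g, ‖opL hT g‖ ≤ C * ‖g‖ := by
  obtain ⟨C, hC⟩ := hT.2.2
  refine ⟨√(max C 0), fun g => ?_⟩
  have h1 := hC _ (rep_InA2 g)
  have h2 : ‖opL hT g‖ ^ 2 ≤ max C 0 * ‖g‖ ^ 2 := by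
    have e1 : ‖opL hT g‖ ^ 2 = nsq Ω (T0 (rep g)) := by
      rw [norm_sq_eq]; exact nsq_congr (opL_ae hT g)
    have e2 : ‖g‖ ^ 2 = nsq Ω (rep g) := by
      have : ‖g‖ = ‖(g : L2 Ω)‖ := rfl
      rw [this, norm_sq_eq]; exact nsq_congr (rep_ae g)
    have e3 : 0 ≤ nsq Ω (rep g) := integral_nonneg fun z => by positivity
    rw [e1, e2]
    exact h1.trans (mul_le_mul_of_nonneg_right (le_max_left _ _) e3)
  have h3 : ‖opL hT g‖ ≤ √(max C 0 * ‖g‖ ^ 2) := Real.le_sqrt_of_sq_le h2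
  rwa [Real.sqrt_mul (le_max_right _ _), Real.sqrt_sq (norm_nonneg _)] at h3

/-- the bounded operator -/
noncomputable def op (hT : IsBoundedLinear Ω T0) : bergman Ω →L[ℂ] L2 Ω :=
  (opL hT).mkContinuousOfExistsBound (opL_bound hT)

lemma op_ae (hT : IsBoundedLinear Ω T0) (g : bergman Ω) :
    (op hT g : L2 Ω) =ᵐ[volume.restrict Ω] T0 (rep g) := opL_ae hT g

/-- the holomorphic part in the Hankel decomposition -/
theorem isHankel_of_mem (hΩ : IsOpen Ω) {φ : (Fin n → ℂ) → ℂ} (g : bergman Ω)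
    (hg : g ∈ hankelDom Ω φ) :
    ∃ h, IsHankel Ω φ (rep g) h ∧ h =ᵐ[volume.restrict Ω] (hankel Ω φ g hg : L2 Ω) := by
  have hcl : (bergman Ω).topologicalClosure = bergman Ω :=
    IsClosed.submodule_topologicalClosure_eq (HS.isClosed_bergman hΩ)
  set u : L2 Ω := MemLp.toLp (fun z => φ z * (g : L2 Ω) z) hg with hu
  have hP : bergmanProj Ω u ∈ bergman Ω := by
    have h1 : bergmanProj Ω u ∈ (bergman Ω).topologicalClosure :=
      Submodule.starProjection_apply_mem _ _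
    rwa [hcl] at h1
  obtain ⟨p, hp, hpe⟩ := hP
  have hpA : InA2 Ω p := ⟨hp, (memLp_congr_ae hpe).mp (Lp.memLp (bergmanProj Ω u))⟩
  have hφg : InL2 Ω (fun z => φ z * rep g z) := by
    refine (memLp_congr_ae ?_).mp hg
    filter_upwards [rep_ae g] with z hz
    rw [hz]
  have hae : (fun z => φ z * rep g z - p z) =ᵐ[volume.restrict Ω] (hankel Ω φ g hg : L2 Ω) := by
    have h1 := Lp.coeFn_sub u (bergmanProj Ω u)
    filter_upwards [h1, MemLp.coeFn_toLp hg, hpe, rep_ae g] with z h1 h2 h3 h4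
    have h5 : (hankel Ω φ g hg : L2 Ω) z = (u - bergmanProj Ω u : L2 Ω) z := rfl
    rw [h5, h1, Pi.sub_apply, h3, hu, h2, h4]
  refine ⟨fun z => φ z * rep g z - p z, ⟨rep_InA2 g, hφg, hφg.sub hpA.2, ⟨p, hpA, fun z _ => by
    ring⟩, fun q hq => ?_⟩, hae⟩
  have h1 : ⟪(cl hq : L2 Ω), u - bergmanProj Ω u⟫_ℂ = 0 := by
    have h2 : u - bergmanProj Ω u ∈ ((bergman Ω).topologicalClosure)ᗮ :=
      Submodule.sub_starProjection_mem_orthogonal u
    rw [hcl] at h2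
    exact (Submodule.mem_orthogonal _ _).mp h2 _ (cl hq).2
  rw [inner_L2] at h1
  rw [← h1]
  refine ip_congr (cl_ae hq).symm ?_
  exact hae

theorem bridge (hΩ : IsOpen Ω) {φ : (Fin n → ℂ) → ℂ} (h : IsHilbertSchmidtHankel Ω φ) :
    HS.IsHilbertSchmidtHankel Ω φ := by
  obtain ⟨hdense, T0, hT, hext, ι, e, ⟨heA, he1, he0, hecomp⟩, hsum⟩ := h
  refine ⟨?_, op hT, ⟨ι, ?_⟩, ?_⟩
  · rw [Metric.dense_iff]
    intro g r hr
    obtain ⟨g', hg', hφ, hlt⟩ := hdense (rep g) (rep_InA2 g) (r ^ 2) (by positivity)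
    refine ⟨cl hg', ?_, ?_⟩
    · rw [Metric.mem_ball, dist_comm, dist_eq_norm]
      have h1 : ‖g - cl hg'‖ ^ 2 < r ^ 2 := by
        have e1 : ‖g - cl hg'‖ = ‖(g : L2 Ω) - (cl hg' : L2 Ω)‖ := rfl
        rw [e1, norm_sq_eq]
        refine lt_of_eq_of_lt (nsq_congr ?_) hlt
        filter_upwards [Lp.coeFn_sub (g : L2 Ω) (cl hg' : L2 Ω), rep_ae g, cl_ae hg']
          with z h1 h2 h3
        rw [h1, Pi.sub_apply, h2, h3]
      exact lt_of_pow_lt_pow_left₀ 2 hr.le h1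
    · refine (memLp_congr_ae ?_).mp hφ
      filter_upwards [cl_ae hg'] with z hz
      rw [hz]
  · have : CompleteSpace (bergman Ω) := by
      have h1 := HS.isClosed_bergman hΩ
      exact h1.completeSpace_coe
    set v : ι → bergman Ω := fun k => cl (heA k) with hv
    have hvo : Orthonormal ℂ v := by
      refine ⟨fun k => ?_, fun k l hkl => ?_⟩
      · have h1 : ‖v k‖ ^ 2 = 1 := by
          have e1 : ‖v k‖ = ‖(cl (heA k) : L2 Ω)‖ := rfl
          have e2 := inner_self_eq_norm_sq_to_K (𝕜 := ℂ) (cl (heA k) : L2 Ω)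
          rw [inner_L2, ip_congr (cl_ae (heA k)) (cl_ae (heA k)), he1 k] at e2
          rw [e1]
          have e3 : ((1 : ℝ) : ℂ) = ((‖(cl (heA k) : L2 Ω)‖ ^ 2 : ℝ) : ℂ) := by
            push_cast; exact e2
          exact (Complex.ofReal_injective e3).symm
        have h2 : (0 : ℝ) ≤ ‖v k‖ := norm_nonneg _
        nlinarith
      · change ⟪(cl (heA k) : L2 Ω), (cl (heA l) : L2 Ω)⟫_ℂ = 0
        rw [inner_L2, ip_congr (cl_ae (heA k)) (cl_ae (heA l)), he0 k l hkl]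
    have hbot : (Submodule.span ℂ (Set.range v))ᗮ = ⊥ := by
      rw [eq_bot_iff]
      intro g hg
      rw [Submodule.mem_bot]
      have h1 : ∀ z ∈ Ω, rep g z = 0 := by
        refine hecomp _ (rep_InA2 g) fun k => ?_
        have h2 : ⟪v k, g⟫_ℂ = 0 :=
          (Submodule.mem_orthogonal _ _).mp hg _ (Submodule.subset_span ⟨k, rfl⟩)
        have h3 : ⟪(cl (heA k) : L2 Ω), (g : L2 Ω)⟫_ℂ = 0 := h2
        rw [inner_L2, ip_congr (cl_ae (heA k)) (rep_ae g)] at h3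
        exact h3
      apply Subtype.ext
      apply Lp.ext
      filter_upwards [rep_ae g, Lp.coeFn_zero ℂ 2 (volume.restrict Ω),
        ae_restrict_mem hΩ.measurableSet] with z h2 h3 h4
      have h5 : ((0 : bergman Ω) : L2 Ω) z = (0 : L2 Ω) z := rfl
      rw [h2, h1 z h4, h5, h3, Pi.zero_apply]
    refine ⟨HilbertBasis.mkOfOrthogonalEqBot hvo hbot, ?_⟩
    refine hsum.congr fun k => ?_
    rw [HilbertBasis.coe_mkOfOrthogonalEqBot, norm_sq_eq]
    refine nsq_congr ?_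
    refine EventuallyEq.symm ((op_ae hT (v k)).trans (T0_congr hT (rep_InA2 _) (heA k) ?_))
    exact (rep_ae (v k)).symm.trans (cl_ae (heA k))
  · intro g hg
    obtain ⟨h, hh1, hh2⟩ := isHankel_of_mem hΩ g hg
    apply Lp.ext
    have h3 : T0 (rep g) =ᵐ[volume.restrict Ω] h := hext _ _ hh1
    exact (op_ae hT g).trans (h3.trans hh2)

end Pool.Agent.N287.HSE
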