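import Pool.Agent.N287.HS.Rot
import Pool.Agent.Helper853.Bk.Scv

set_option autoImplicit false

/-! The components of a holomorphic function on a Reinhardt domain are multiples of the Laurent
monomials. -/

namespace Pool.Agent.N287.HS

open MeasureTheory Filter Topology ComplexConjugate Metric
open Pool.Agent.Helper853.Bk

variable {n : ℕ}

/-- Haar measure of the torus -/
noncomputable def tm (n : ℕ) : Measure (UnitAddTorus (Fin n)) :=
  Measure.pi fun _ => AddCircle.haarAddCircle

noncomputable instance : IsProbabilityMeasure (tm n) := by unfold tm; infer_instance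
noncomputable instance : Measure.IsAddLeftInvariant (tm n) := by unfold tm; infer_instance
noncomputable instance : Measure.IsOpenPosMeasure (tm n) := by unfold tm; infer_instance

/-- The component of weight `β` -/
noncomputable def comp (β : Fin n → ℤ) (g : (Fin n → ℂ) → ℂ) (z : Fin n → ℂ) : ℂ :=
  ∫ t, UnitAddTorus.mFourier (-β) t * g (rt t z) ∂(tm n)

/-- rotation as a linear map -/
noncomputable def rtL (t : UnitAddTorus (Fin n)) : (Fin n → ℂ) →L[ℂ] (Fin n → ℂ) :=
  ContinuousLinearMap.pi fun j => (fourier 1 (t j) : ℂ) • ContinuousLinearMap.proj j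

lemma rtL_apply (t : UnitAddTorus (Fin n)) (z : Fin n → ℂ) : rtL t z = rt t z := by
  funext j
  simp [rtL, rt]

lemma norm_rt (t : UnitAddTorus (Fin n)) (z : Fin n → ℂ) : ‖rt t z‖ = ‖z‖ := by
  have h := rt_dist t z 0
  have h0 : rt t (0 : Fin n → ℂ) = 0 := by funext j; simp [rt]
  rwa [h0, dist_zero_right, dist_zero_right] at h

lemma norm_rtL (t : UnitAddTorus (Fin n)) : ‖rtL t‖ ≤ 1 :=
  ContinuousLinearMap.opNorm_le_bound _ zero_le_one fun z => by
    rw [rtL_apply, norm_rt, one_mul]

lemma continuous_rtL : Continuous (rtL : UnitAddTorus (Fin n) → _) := by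
  rw [continuous_clm_apply]
  intro z
  have : (fun t => rtL t z) = fun t => rt t z := by funext t; exact rtL_apply t z
  rw [this]
  exact continuous_rt.comp (continuous_id.prodMk continuous_const)

lemma norm_mFourier (β : Fin n → ℤ) (t : UnitAddTorus (Fin n)) :
    ‖(UnitAddTorus.mFourier β t : ℂ)‖ = 1 := by
  simp only [UnitAddTorus.mFourier, ContinuousMap.coe_mk, norm_prod, norm_fourier,
    Finset.prod_const_one]

lemma rt_rt (s t : UnitAddTorus (Fin n)) (z : Fin n → ℂ) : rt t (rt s z) = rt (t + s) z := by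
  funext j
  simp only [rt, Pi.add_apply]
  rw [← mul_assoc]
  congr 1
  rw [fourier_apply, fourier_apply, fourier_apply, one_smul, one_smul, one_smul,
    AddCircle.toCircle_add]
  norm_cast

lemma continuous_orbit {Ω : Set (Fin n → ℂ)} (hR : ModInv Ω) {g : (Fin n → ℂ) → ℂ}
    (hg : ContinuousOn g Ω) {z : Fin n → ℂ} (hz : z ∈ Ω) : Continuous fun t => g (rt t z) :=
  hg.comp_continuous (continuous_rt.comp (continuous_id.prodMk continuous_const))
    fun t => (hR.rt_mem t).mpr hz

lemma comp_differentiableOn {Ω : Set (Fin n → ℂ)} (hΩ : IsOpen Ω) (hR : ModInv Ω)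
    (β : Fin n → ℤ) {g : (Fin n → ℂ) → ℂ} (hg : DifferentiableOn ℂ g Ω) :
    DifferentiableOn ℂ (comp β g) Ω := by
  intro z₀ hz₀
  apply DifferentiableAt.differentiableWithinAt
  obtain ⟨r, hr, hrΩ⟩ := Metric.nhds_basis_closedBall.mem_iff.mp (hΩ.mem_nhds hz₀)
  -- the rotated ball
  set C : Set (Fin n → ℂ) := (fun p : UnitAddTorus (Fin n) × (Fin n → ℂ) => rt p.1 p.2) ''
    (Set.univ ×ˢ closedBall z₀ r) with hC
  have hCc : IsCompact C := (isCompact_univ.prod (isCompact_closedBall z₀ r)).image continuous_rt
  have hCΩ : C ⊆ Ω := by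
    rintro _ ⟨p, hp, rfl⟩
    exact (hR.rt_mem p.1).mpr (hrΩ hp.2)
  have hfd : ContinuousOn (fderiv ℂ g) Ω :=
    (contDiffOn_of_differentiableOn hΩ hg).continuousOn_fderiv_of_isOpen hΩ (by simp)
  obtain ⟨M, hM⟩ := hCc.exists_bound_of_continuousOn (hfd.mono hCΩ)
  set F' : (Fin n → ℂ) → UnitAddTorus (Fin n) → ((Fin n → ℂ) →L[ℂ] ℂ) := fun z t =>
    (UnitAddTorus.mFourier (-β) t : ℂ) • (fderiv ℂ g (rt t z)).comp (rtL t) with hF'
  have key := hasFDerivAt_integral_of_dominated_of_fderiv_le (𝕜 := ℂ) (μ := tm n)
    (F := fun z t => UnitAddTorus.mFourier (-β) t * g (rt t z)) (F' := F')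
    (bound := fun _ => M) (s := closedBall z₀ r) (x₀ := z₀) (closedBall_mem_nhds z₀ hr) ?_ ?_ ?_ ?_
    ?_ ?_
  · exact key.differentiableAt
  · filter_upwards [hΩ.mem_nhds hz₀] with z hz
    exact ((UnitAddTorus.mFourier (-β)).continuous.mul
      (continuous_orbit hR hg.continuousOn hz)).aestronglyMeasurable
  · exact ((UnitAddTorus.mFourier (-β)).continuous.mul
      (continuous_orbit hR hg.continuousOn hz₀)).integrable_of_hasCompactSupport
        (HasCompactSupport.of_compactSpace _)
  · apply Continuous.aestronglyMeasurable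
    apply (UnitAddTorus.mFourier (-β)).continuous.smul
    refine Continuous.clm_comp ?_ continuous_rtL
    exact hfd.comp_continuous (continuous_rt.comp (continuous_id.prodMk continuous_const))
      fun t => (hR.rt_mem t).mpr hz₀
  · refine Filter.Eventually.of_forall fun t z hz => ?_
    rw [hF']
    simp only [norm_smul, norm_mFourier, one_mul]
    refine (ContinuousLinearMap.opNorm_comp_le _ _).trans ?_
    have h1 := hM (rt t z) ⟨(t, z), ⟨Set.mem_univ _, hz⟩, rfl⟩
    have hM0 : 0 ≤ M := (norm_nonneg _).trans h1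
    calc ‖fderiv ℂ g (rt t z)‖ * ‖rtL t‖ ≤ M * 1 := by
          gcongr
          exact norm_rtL t
      _ = M := mul_one M
  · exact integrable_const M
  · refine Filter.Eventually.of_forall fun t z hz => ?_
    have h1 : HasFDerivAt g (fderiv ℂ g (rt t z)) (rtL t z) := by
      rw [rtL_apply]
      exact (hg.differentiableAt (hΩ.mem_nhds ((hR.rt_mem t).mpr (hrΩ hz)))).hasFDerivAt
    have h2 := h1.comp z (rtL t).hasFDerivAt
    have h3 : (g ∘ fun z => rtL t z) = fun z => g (rt t z) := by
      funext w; simp [rtL_apply]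
    have h4 : HasFDerivAt (fun z => g (rt t z)) ((fderiv ℂ g (rt t z)).comp (rtL t)) z := by
      rw [← h3]; exact h2
    exact h4.const_smul (UnitAddTorus.mFourier (-β) t : ℂ)

lemma comp_rt (β : Fin n → ℤ) (g : (Fin n → ℂ) → ℂ) (s : UnitAddTorus (Fin n)) (z : Fin n → ℂ) :
    comp β g (rt s z) = UnitAddTorus.mFourier β s * comp β g z := by
  unfold comp
  simp_rw [rt_rt]
  rw [← integral_const_mul]
  rw [← integral_add_right_eq_self (μ := tm n)
    (fun t => (UnitAddTorus.mFourier β s : ℂ) * (UnitAddTorus.mFourier (-β) t * g (rt t z))) s]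
  refine integral_congr_ae (Filter.Eventually.of_forall fun t => ?_)
  simp only
  have h1 : (UnitAddTorus.mFourier (-β) (t + s) : ℂ) =
      UnitAddTorus.mFourier (-β) t * UnitAddTorus.mFourier (-β) s := by
    simp only [UnitAddTorus.mFourier, ContinuousMap.coe_mk, Pi.add_apply,
      ← Finset.prod_mul_distrib]
    refine Finset.prod_congr rfl fun j _ => ?_
    rw [fourier_apply, fourier_apply, fourier_apply, smul_add, AddCircle.toCircle_add]
    norm_cast
  have h2 : (UnitAddTorus.mFourier β s : ℂ) * UnitAddTorus.mFourier (-β) s = 1 := by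
    rw [← UnitAddTorus.mFourier_add, add_neg_cancel, UnitAddTorus.mFourier_zero]
    rfl
  rw [h1]
  calc (UnitAddTorus.mFourier (-β) t : ℂ) * g (rt (t + s) z)
      = ((UnitAddTorus.mFourier β s : ℂ) * UnitAddTorus.mFourier (-β) s) *
        (UnitAddTorus.mFourier (-β) t * g (rt (t + s) z)) := by rw [h2, one_mul]
    _ = _ := by ring

/-- Identity theorem in several variables. -/
theorem ident {Ω : Set (Fin n → ℂ)} (hΩ : IsOpen Ω) (hc : IsPreconnected Ω)
    {H : (Fin n → ℂ) → ℂ} (hH : DifferentiableOn ℂ H Ω) {p : Fin n → ℂ} (hp : p ∈ Ω)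
    (h0 : ∀ᶠ z in 𝓝 p, H z = 0) : ∀ z ∈ Ω, H z = 0 := by
  set A : Set (Fin n → ℂ) := {z | ∀ᶠ w in 𝓝 z, H w = 0} with hA
  have hAo : IsOpen A := by
    rw [isOpen_iff_mem_nhds]
    intro z hz
    exact hz.eventually_nhds
  have hsub : Ω ⊆ A := by
    refine hc.subset_of_closure_inter_subset hAo ⟨p, hp, h0⟩ ?_
    rintro z ⟨hzc, hzΩ⟩
    obtain ⟨r, hr, hrΩ⟩ := Metric.isOpen_iff.mp hΩ z hzΩ
    obtain ⟨q, hqA, hq⟩ := Metric.mem_closure_iff.mp hzc r hr
    have hqb : q ∈ ball z r := by rw [mem_ball, dist_comm]; exact hq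
    -- `H` vanishes on the ball
    have hv : ∀ w ∈ ball z r, H w = 0 := by
      intro w hw
      set L : ℂ → (Fin n → ℂ) := fun ζ => q + ζ • (w - q) with hL
      have hLc : Continuous L := by rw [hL]; fun_prop
      set U : Set ℂ := L ⁻¹' ball z r with hU
      have hUo : IsOpen U := isOpen_ball.preimage hLc
      have hUc : Convex ℝ U := by
        intro a ha b hb x y hx hy hxy
        have e : L (x • a + y • b) = x • L a + y • L b := by
          funext j
          simp only [hL, Pi.add_apply, Pi.smul_apply, Pi.sub_apply, smul_eq_mul,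
            Complex.real_smul]
          have h : (x : ℂ) + y = 1 := by exact_mod_cast hxy
          linear_combination (-(q j)) * h
        change L (x • a + y • b) ∈ ball z r
        rw [e]
        exact convex_ball z r ha hb hx hy hxy
      have h0U : (0 : ℂ) ∈ U := by
        change L 0 ∈ ball z r
        simp only [hL, zero_smul, add_zero]
        exact hqb
      have h1U : (1 : ℂ) ∈ U := by
        change L 1 ∈ ball z r
        simp only [hL, one_smul, add_sub_cancel]
        exact hw
      have hd : DifferentiableOn ℂ (fun ζ => H (L ζ)) U := by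
        refine hH.comp ?_ (fun ζ hζ => hrΩ hζ)
        rw [hL]; fun_prop
      have han : AnalyticOnNhd ℂ (fun ζ => H (L ζ)) U := hd.analyticOnNhd hUo
      have hev : (fun ζ => H (L ζ)) =ᶠ[𝓝 0] 0 := by
        have hLc0 : Tendsto L (𝓝 0) (𝓝 q) := by
          have := hLc.tendsto 0
          simpa [hL] using this
        exact hLc0.eventually hqA
      have := han.eqOn_zero_of_preconnected_of_eventuallyEq_zero hUc.isPreconnected h0U hev h1U
      simpa [hL] using this
    exact Filter.eventually_of_mem (isOpen_ball.mem_nhds (mem_ball_self hr)) hv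
  intro z hz
  exact (hsub hz).self_of_nhds

/-- A component is a multiple of a Laurent monomial. -/
theorem comp_eq {Ω : Set (Fin n → ℂ)} (hΩ : IsOpen Ω) (hc : IsPreconnected Ω) (hR : ModInv Ω)
    (hne : Ω.Nonempty) (β : Fin n → ℤ) {g : (Fin n → ℂ) → ℂ} (hg : DifferentiableOn ℂ g Ω) :
    ∃ a : ℂ, ∀ z ∈ Ω, (∀ j, z j ≠ 0) → comp β g z = a * mon β z := by
  set G := comp β g with hG
  have hGd : DifferentiableOn ℂ G Ω := comp_differentiableOn hΩ hR β hg
  -- a point outside the coordinate hyperplanes
  obtain ⟨p, hpΩ, hp0⟩ : ∃ p ∈ Ω, ∀ j, p j ≠ 0 := by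
    by_contra hcon
    push Not at hcon
    have h1 : volume Ω = 0 := by
      refine measure_mono_null ?_ (ae_iff.mp (ae_ne_zero (n := n)))
      intro z hz
      obtain ⟨j, hj⟩ := hcon z hz
      simp only [Set.mem_ofPred_eq, not_forall, not_not]
      exact ⟨j, hj⟩
    exact (hΩ.measure_pos volume hne).ne' h1
  set O : Set (Fin n → ℂ) := Ω ∩ {z | ∀ j, z j ≠ 0} with hO
  have hOo : IsOpen O := hΩ.inter isOpen_ne
  obtain ⟨r, hr, hrO⟩ := Metric.isOpen_iff.mp hOo p ⟨hpΩ, hp0⟩
  set q : (Fin n → ℂ) → ℂ := fun z => G z * (mon β z)⁻¹ with hq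
  have hqd : ∀ z ∈ O, DifferentiableAt ℂ q z := by
    intro z hz
    exact (hGd.differentiableAt (hΩ.mem_nhds hz.1)).fun_mul
      ((differentiableAt_mon β hz.2).inv (mon_ne β hz.2))
  have hqr : ∀ t z, q (rt t z) = q z := by
    intro t z
    simp only [hq, hG, comp_rt, mon_rt, mul_inv]
    have h1 : (UnitAddTorus.mFourier β t : ℂ) ≠ 0 := by
      rw [← norm_pos_iff, norm_mFourier]; exact one_pos
    field_simp
  -- the derivative vanishes
  have hfd : ∀ z ∈ O, fderiv ℂ q z = 0 := by
    intro z hz
    have key : ∀ j, fderiv ℂ q z (Pi.single j 1) = 0 := by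
      intro j
      set c : ℝ → (Fin n → ℂ) := fun s => Function.update z j
        (Complex.exp (2 * Real.pi * Complex.I * s) * z j) with hcdef
      have hc0 : c 0 = z := by simp [hcdef]
      have hcd : HasDerivAt c (Pi.single j (2 * Real.pi * Complex.I * z j)) 0 := by
        rw [hasDerivAt_pi]
        intro i
        by_cases hi : i = j
        · subst hi
          simp only [hcdef, Function.update_self, Pi.single_eq_same]
          have h1 : HasDerivAt (fun s : ℝ => Complex.exp (2 * Real.pi * Complex.I * s))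
              (Complex.exp (2 * Real.pi * Complex.I * (0 : ℝ)) * (2 * Real.pi * Complex.I)) 0 := by
            have h2 : HasDerivAt (fun s : ℝ => 2 * Real.pi * Complex.I * (s : ℂ))
                (2 * Real.pi * Complex.I) 0 := by
              have := (Complex.ofRealCLM.hasDerivAt (x := (0 : ℝ))).const_mul
                (2 * Real.pi * Complex.I : ℂ)
              simpa using this
            exact h2.cexp
          have h3 := h1.mul_const (z i)
          simpa using h3
        · simp only [hcdef, Function.update_of_ne hi, Pi.single_eq_of_ne hi]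
          exact hasDerivAt_const _ _
      have hcr : ∀ s : ℝ, q (c s) = q z := by
        intro s
        set t : UnitAddTorus (Fin n) := Function.update 0 j (s : UnitAddCircle) with ht
        have : c s = rt t z := by
          funext i
          by_cases hi : i = j
          · subst hi
            simp only [hcdef, rt, ht, Function.update_self]
            rw [fourier_coe_apply]
            congr 2
            push_cast
            ring
          · simp only [hcdef, rt, ht, Function.update_of_ne hi, Pi.zero_apply]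
            rw [fourier_eval_zero, one_mul]
        rw [this, hqr]
      have h1 : HasFDerivAt q (fderiv ℂ q z) (c 0) := by
        rw [hc0]; exact (hqd z hz).hasFDerivAt
      have h2 := (h1.restrictScalars ℝ).comp_hasDerivAt (0 : ℝ) hcd
      have h3 : (q ∘ c) = fun _ => q z := by funext s; exact hcr s
      rw [h3] at h2
      have h4 := h2.unique (hasDerivAt_const _ _)
      have h5 : (Pi.single j (2 * Real.pi * Complex.I * z j) : Fin n → ℂ) =
          (2 * Real.pi * Complex.I * z j) • Pi.single j 1 := by
        rw [← Pi.single_smul, smul_eq_mul, mul_one]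
      have h6 : fderiv ℂ q z (Pi.single j (2 * Real.pi * Complex.I * z j)) = 0 := h4
      rw [h5, map_smul, smul_eq_mul, mul_eq_zero] at h6
      rcases h6 with h6 | h6
      · exfalso
        have : (2 * Real.pi * Complex.I : ℂ) ≠ 0 := by
          simp [Real.pi_ne_zero]
        exact (mul_ne_zero this (hz.2 j)) h6
      · exact h6
    refine ContinuousLinearMap.ext fun v => ?_
    have hv : v = ∑ j, v j • (Pi.single j (1 : ℂ) : Fin n → ℂ) := by
      funext i
      simp [Finset.sum_apply, Pi.single_apply]
    rw [hv, map_sum]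
    simp only [map_smul, key, smul_zero, Finset.sum_const_zero, ContinuousLinearMap.zero_apply]
  have hball : ∀ z ∈ ball p r, q z = q p := by
    intro z hz
    exact isOpen_ball.is_const_of_fderiv_eq_zero (𝕜 := ℂ) (convex_ball p r).isPreconnected
      (fun w hw => (hqd w (hrO hw)).differentiableWithinAt)
      (fun w hw => hfd w (hrO hw)) hz (mem_ball_self hr)
  -- clear denominators
  set a := q p with ha
  set bp : Fin n → ℕ := fun j => (β j).toNat with hbp
  set bm : Fin n → ℕ := fun j => (-β j).toNat with hbm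
  have hmon : ∀ z : Fin n → ℂ, (∀ j, z j ≠ 0) →
      (∏ j, z j ^ bm j) * mon β z = ∏ j, z j ^ bp j := by
    intro z hz
    rw [mon, ← Finset.prod_mul_distrib]
    refine Finset.prod_congr rfl fun j _ => ?_
    rw [← zpow_natCast, ← zpow_natCast, ← zpow_add₀ (hz j)]
    congr 1
    simp only [hbp, hbm]
    omega
  have hH := ident hΩ hc (H := fun z => (∏ j, z j ^ bm j) * G z - a * ∏ j, z j ^ bp j) ?_ hpΩ ?_
  · refine ⟨a, fun z hz h0 => ?_⟩
    have h1 := hH z hz
    rw [← hmon z h0] at h1
    have h2 : (∏ j, z j ^ bm j) ≠ 0 :=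
      Finset.prod_ne_zero_iff.mpr fun j _ => pow_ne_zero _ (h0 j)
    have h3 : (∏ j, z j ^ bm j) * (G z - a * mon β z) = 0 := by linear_combination h1
    rcases mul_eq_zero.mp h3 with h | h
    · exact absurd h h2
    · exact sub_eq_zero.mp h
  · refine DifferentiableOn.fun_sub (DifferentiableOn.fun_mul ?_ hGd) ?_
    · exact fun z _ => (differentiableAt_prod _ (fun j (z : Fin n → ℂ) => z j ^ bm j) z
        fun j _ => by fun_prop).differentiableWithinAt
    · exact fun z _ => ((differentiableAt_prod _ (fun j (z : Fin n → ℂ) => z j ^ bp j) z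
        fun j _ => by fun_prop).const_mul a).differentiableWithinAt
  · filter_upwards [isOpen_ball.mem_nhds (mem_ball_self hr)] with z hz
    have h0 := (hrO hz).2
    have h1 := hball z hz
    simp only [hq] at h1
    have h2 : G z = a * mon β z := by
      rw [← h1]
      field_simp [mon_ne β h0]
    rw [h2, ← hmon z h0]
    ring

end Pool.Agent.N287.HS
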