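import Mathlib

set_option autoImplicit false

/-! # Hankel operators on Bergman spaces: definitions -/

namespace Pool.Agent.N287.HS

open MeasureTheory

variable {n : ℕ}

/-- `Ω ⊆ ℂⁿ` is a Reinhardt set: it is invariant under the rotations
`(z_1, …, z_n) ↦ (e^{iθ_1} z_1, …, e^{iθ_n} z_n)`, `θ_j` real. -/
def IsReinhardt (Ω : Set (Fin n → ℂ)) : Prop :=
  ∀ z ∈ Ω, ∀ θ : Fin n → ℝ, (fun j => Complex.exp (Complex.I * θ j) * z j) ∈ Ω

/-- `L²(Ω)` for Lebesgue measure. -/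
abbrev L2 (Ω : Set (Fin n → ℂ)) : Type := Lp ℂ 2 (volume.restrict Ω)

/-- The Bergman space `A²(Ω)`: the classes in `L²(Ω)` which contain a function holomorphic
on `Ω`. -/
def bergman (Ω : Set (Fin n → ℂ)) : Submodule ℂ (L2 Ω) where
  carrier := {g | ∃ G : (Fin n → ℂ) → ℂ, DifferentiableOn ℂ G Ω ∧ g =ᵐ[volume.restrict Ω] G}
  add_mem' := by
    rintro a b ⟨G, hG, ha⟩ ⟨H, hH, hb⟩
    refine ⟨fun z => G z + H z, hG.fun_add hH, ?_⟩
    filter_upwards [ha, hb, Lp.coeFn_add a b] with z h1 h2 h3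
    rw [h3, Pi.add_apply, h1, h2]
  zero_mem' := ⟨fun _ => 0, differentiableOn_const _, Lp.coeFn_zero _ _ _⟩
  smul_mem' := by
    rintro c a ⟨G, hG, ha⟩
    refine ⟨fun z => c * G z, hG.const_mul c, ?_⟩
    filter_upwards [ha, Lp.coeFn_smul c a] with z h1 h2
    rw [h2, Pi.smul_apply, h1, smul_eq_mul]

/-- The Bergman projection: the orthogonal projection of `L²(Ω)` onto (the closure of) `A²(Ω)`;
`A²(Ω)` is closed for open `Ω`, see `isClosed_bergman`. -/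
noncomputable def bergmanProj (Ω : Set (Fin n → ℂ)) : L2 Ω →L[ℂ] L2 Ω :=
  (bergman Ω).topologicalClosure.starProjection

/-- The domain `{g ∈ A²(Ω) : φ g ∈ L²(Ω)}` of the Hankel operator with symbol `φ`. -/
def hankelDom (Ω : Set (Fin n → ℂ)) (φ : (Fin n → ℂ) → ℂ) : Set (bergman Ω) :=
  {g | MemLp (fun z => φ z * (g : L2 Ω) z) 2 (volume.restrict Ω)}

/-- The Hankel operator `H_φ g = (I - P)(φ g)`. -/
noncomputable def hankel (Ω : Set (Fin n → ℂ)) (φ : (Fin n → ℂ) → ℂ) (g : bergman Ω)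
    (hg : g ∈ hankelDom Ω φ) : L2 Ω :=
  MemLp.toLp (fun z => φ z * (g : L2 Ω) z) hg -
    bergmanProj Ω (MemLp.toLp (fun z => φ z * (g : L2 Ω) z) hg)

/-- `T` is a Hilbert-Schmidt operator: `∑ ‖T e_k‖² < ∞` for some orthonormal basis `(e_k)`. -/
def IsHilbertSchmidt {Ω : Set (Fin n → ℂ)} (T : bergman Ω →L[ℂ] L2 Ω) : Prop :=
  ∃ (ι : Type) (b : HilbertBasis ι ℂ (bergman Ω)), Summable fun i => ‖T (b i)‖ ^ 2

/-- The Hankel operator `H_φ` is Hilbert-Schmidt: its domain is dense in `A²(Ω)` and it extends to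
a Hilbert-Schmidt operator `A²(Ω) → L²(Ω)`. -/
def IsHilbertSchmidtHankel (Ω : Set (Fin n → ℂ)) (φ : (Fin n → ℂ) → ℂ) : Prop :=
  Dense (hankelDom Ω φ) ∧ ∃ T : bergman Ω →L[ℂ] L2 Ω, IsHilbertSchmidt T ∧
    ∀ (g : bergman Ω) (hg : g ∈ hankelDom Ω φ), T g = hankel Ω φ g hg

end Pool.Agent.N287.HS
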