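import Pool.Agent.N287.HS.Comp

set_option autoImplicit false

/-! Pairing of a holomorphic function with a Laurent monomial times a function of the moduli. -/

namespace Pool.Agent.N287.HS

open MeasureTheory Filter Topology ComplexConjugate Metric
open Pool.Agent.Helper853.Bk

variable {n : ℕ}

/-- rotation as a homeomorphism -/
noncomputable def rtH (t : UnitAddTorus (Fin n)) : (Fin n → ℂ) ≃ₜ (Fin n → ℂ) where
  toFun := rt t
  invFun := rt (-t)
  left_inv := rt_neg_rt t
  right_inv := rt_rt_neg t
  continuous_toFun := continuous_rt.comp (continuous_const.prodMk continuous_id)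
  continuous_invFun := continuous_rt.comp (continuous_const.prodMk continuous_id)

lemma setIntegral_rt {Ω : Set (Fin n → ℂ)} (hR : ModInv Ω) (m : ℕ) (t : UnitAddTorus (Fin n))
    (F : (Fin n → ℂ) → ℂ) : ∫ z in KK Ω m, F (rt t z) = ∫ z in KK Ω m, F z := by
  have h1 := (measurePreserving_rt t).setIntegral_preimage_emb
    (rtH t).measurableEmbedding F (KK Ω m)
  have h2 : rt t ⁻¹' KK Ω m = KK Ω m := by
    ext z; exact rt_mem_KK hR t
  rw [h2] at h1
  exact h1

lemma conj_mFourier_mul (β : Fin n → ℤ) (t : UnitAddTorus (Fin n)) :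
    conj (UnitAddTorus.mFourier β t : ℂ) = UnitAddTorus.mFourier (-β) t :=
  UnitAddTorus.mFourier_neg.symm

theorem comp_formula {Ω : Set (Fin n → ℂ)} (hb : Bornology.IsBounded Ω)
    (hR : ModInv Ω) {g : (Fin n → ℂ) → ℂ} (hg : ContinuousOn g Ω) (β : Fin n → ℤ) (m : ℕ)
    {ψ : (Fin n → ℂ) → ℂ} (hψ : ContinuousOn ψ (KK Ω m)) (hψr : ∀ t z, ψ (rt t z) = ψ z)
    {a : ℂ} (ha : ∀ z ∈ Ω, (∀ j, z j ≠ 0) → comp β g z = a * mon β z) :
    ∫ z in KK Ω m, g z * conj (mon β z) * ψ z =
      a * ∫ z in KK Ω m, ((‖mon β z‖ ^ 2 : ℝ) : ℂ) * ψ z := by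
  have h1 : ∀ t, ∫ z in KK Ω m, UnitAddTorus.mFourier (-β) t * g (rt t z) *
      (conj (mon β z) * ψ z) = ∫ z in KK Ω m, g z * conj (mon β z) * ψ z := by
    intro t
    rw [← setIntegral_rt hR m t (fun z => g z * conj (mon β z) * ψ z)]
    refine integral_congr_ae (Filter.Eventually.of_forall fun z => ?_)
    simp only [mon_rt, map_mul, hψr, conj_mFourier_mul]
    ring
  have h2 : ∫ z in KK Ω m, g z * conj (mon β z) * ψ z =
      ∫ t, (∫ z in KK Ω m, UnitAddTorus.mFourier (-β) t * g (rt t z) *
        (conj (mon β z) * ψ z)) ∂(tm n) := by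
    simp_rw [h1]
    simp
  have hK := isCompact_KK hb m
  rw [h2, integral_integral_swap]
  · rw [← integral_const_mul]
    refine setIntegral_congr_fun (isClosed_KK Ω m).measurableSet fun z hz => ?_
    rw [integral_mul_const]
    have h3 := ha z (KK_sub hz) (KK_pos hz)
    rw [comp] at h3
    rw [h3]
    have h4 : ((‖mon β z‖ ^ 2 : ℝ) : ℂ) = mon β z * conj (mon β z) := by
      rw [Complex.mul_conj, Complex.normSq_eq_norm_sq]
    rw [h4]
    ring
  · have h5 : (tm n).prod (volume.restrict (KK Ω m)) =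
        ((tm n).prod (volume : Measure (Fin n → ℂ))).restrict (Set.univ ×ˢ KK Ω m) := by
      rw [← Measure.prod_restrict, Measure.restrict_univ]
    rw [h5]
    refine ContinuousOn.integrableOn_compact (isCompact_univ.prod hK) ?_
    have h6 : ContinuousOn (fun p : UnitAddTorus (Fin n) × (Fin n → ℂ) => g (rt p.1 p.2))
        (Set.univ ×ˢ KK Ω m) := by
      refine hg.comp continuous_rt.continuousOn ?_
      rintro ⟨t, z⟩ ⟨-, hz⟩
      exact (hR.rt_mem t).mpr (KK_sub hz)
    have h7 : ContinuousOn (fun p : UnitAddTorus (Fin n) × (Fin n → ℂ) =>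
        conj (mon β p.2) * ψ p.2) (Set.univ ×ˢ KK Ω m) := by
      refine ContinuousOn.mul ?_ ?_
      · exact Complex.continuous_conj.comp_continuousOn
          ((continuousOn_mon β).comp continuous_snd.continuousOn fun p hp => hp.2)
      · exact hψ.comp continuous_snd.continuousOn fun p hp => hp.2
    exact (((UnitAddTorus.mFourier (-β)).continuous.comp continuous_fst).continuousOn.mul
      h6).mul h7

lemma rt_zero (z : Fin n → ℂ) : rt 0 z = z := by
  funext j
  simp only [rt, Pi.zero_apply]
  rw [fourier_eval_zero, one_mul]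

lemma mFourier_add_arg (k : Fin n → ℤ) (t s : UnitAddTorus (Fin n)) :
    (UnitAddTorus.mFourier k (t + s) : ℂ) =
      UnitAddTorus.mFourier k t * UnitAddTorus.mFourier k s := by
  simp only [UnitAddTorus.mFourier, ContinuousMap.coe_mk, Pi.add_apply,
    ← Finset.prod_mul_distrib]
  refine Finset.prod_congr rfl fun j _ => ?_
  rw [fourier_apply, fourier_apply, fourier_apply, smul_add, AddCircle.toCircle_add]
  norm_cast

lemma exists_mFourier_neg_one {k : Fin n → ℤ} (hk : k ≠ 0) :
    ∃ s, (UnitAddTorus.mFourier k s : ℂ) = -1 := by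
  obtain ⟨j, hj⟩ := Function.ne_iff.mp hk
  simp only [Pi.zero_apply] at hj
  refine ⟨Function.update 0 j (((1 / (2 * (k j : ℝ)) : ℝ)) : UnitAddCircle), ?_⟩
  simp only [UnitAddTorus.mFourier, ContinuousMap.coe_mk]
  rw [Finset.prod_eq_single j]
  · rw [Function.update_self, fourier_coe_apply]
    have hk' : (k j : ℂ) ≠ 0 := by exact_mod_cast hj
    have : (2 * Real.pi * Complex.I * (k j : ℂ) * ((1 / (2 * (k j : ℝ)) : ℝ) : ℂ) /
        ((1 : ℝ) : ℂ)) = Real.pi * Complex.I := by
      push_cast
      field_simp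
    rw [this, Complex.exp_pi_mul_I]
  · intro i _ hi
    rw [Function.update_of_ne hi, Pi.zero_apply, fourier_eval_zero]
  · intro hj'
    exact absurd (Finset.mem_univ j) hj'

/-- A continuous function on the torus without nonconstant Fourier coefficients is constant. -/
theorem const_of_coeff {u : UnitAddTorus (Fin n) → ℂ} (hu : Continuous u)
    (h : ∀ k : Fin n → ℤ, k ≠ 0 → ∫ t, UnitAddTorus.mFourier (-k) t * u t ∂(tm n) = 0) :
    ∀ t, u t = ∫ s, u s ∂(tm n) := by
  set c := ∫ s, u s ∂(tm n) with hc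
  set v : C(UnitAddTorus (Fin n), ℂ) := ⟨fun t => u t - c, by fun_prop⟩ with hv
  have hint : ∀ w : C(UnitAddTorus (Fin n), ℂ), Integrable w (tm n) := fun w =>
    w.continuous.integrable_of_hasCompactSupport (HasCompactSupport.of_compactSpace _)
  -- the functional `P ↦ ∫ P v`
  have hmon : ∀ k : Fin n → ℤ, ∫ t, UnitAddTorus.mFourier k t * v t ∂(tm n) = 0 := by
    intro k
    have hm : ∀ k : Fin n → ℤ, k ≠ 0 → ∫ t, (UnitAddTorus.mFourier k t : ℂ) ∂(tm n) = 0 := by
      intro k hk
      obtain ⟨s, h1⟩ := exists_mFourier_neg_one hk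
      have h2 := integral_add_right_eq_self (μ := tm n)
        (fun t => (UnitAddTorus.mFourier k t : ℂ)) s
      have h3 : ∀ t, (UnitAddTorus.mFourier k (t + s) : ℂ) = - UnitAddTorus.mFourier k t := by
        intro t
        rw [mFourier_add_arg, h1]; ring
      simp_rw [h3] at h2
      rw [integral_neg] at h2
      have h4 : (2 : ℂ) * ∫ t, (UnitAddTorus.mFourier k t : ℂ) ∂(tm n) = 0 := by
        linear_combination -h2
      simpa using h4
    have h1 : ∫ t, UnitAddTorus.mFourier k t * v t ∂(tm n) =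
        (∫ t, UnitAddTorus.mFourier k t * u t ∂(tm n)) -
          c * ∫ t, UnitAddTorus.mFourier k t ∂(tm n) := by
      rw [← integral_const_mul, ← integral_sub]
      · refine integral_congr_ae (Filter.Eventually.of_forall fun t => ?_)
        simp only [hv, ContinuousMap.coe_mk]
        ring
      · exact hint ⟨fun t => UnitAddTorus.mFourier k t * u t, by fun_prop⟩
      · exact hint ⟨fun t => c * UnitAddTorus.mFourier k t, by fun_prop⟩
    rw [h1]
    by_cases hk : k = 0
    · subst hk
      rw [UnitAddTorus.mFourier_zero]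
      simp [hc]
    · rw [hm k hk, mul_zero, sub_zero]
      have := h (-k) (neg_ne_zero.mpr hk)
      rwa [neg_neg] at this
  -- closed subspace
  set L : C(UnitAddTorus (Fin n), ℂ) →ₗ[ℂ] ℂ :=
    { toFun := fun P => ∫ t, P t * v t ∂(tm n)
      map_add' := fun P Q => by
        refine Eq.trans ?_ (integral_add (hint (P * v)) (hint (Q * v)))
        refine integral_congr_ae (Filter.Eventually.of_forall fun t => ?_)
        simp only [ContinuousMap.add_apply]
        ring
      map_smul' := fun c P => by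
        simp only [RingHom.id_apply, smul_eq_mul]
        rw [← integral_const_mul]
        refine integral_congr_ae (Filter.Eventually.of_forall fun t => ?_)
        simp only [ContinuousMap.smul_apply, smul_eq_mul]
        ring } with hL
  have hLc : Continuous L := by
    refine AddMonoidHomClass.continuous_of_bound L ‖v‖ fun P => ?_
    have h1 : ‖∫ t, P t * v t ∂(tm n)‖ ≤ (‖v‖ * ‖P‖) * (tm n).real Set.univ := by
      refine norm_integral_le_of_norm_le_const (Filter.Eventually.of_forall fun t => ?_)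
      rw [norm_mul, mul_comm]
      exact mul_le_mul (v.norm_coe_le_norm t) (P.norm_coe_le_norm t) (norm_nonneg _) (norm_nonneg _)
    change ‖∫ t, P t * v t ∂(tm n)‖ ≤ ‖v‖ * ‖P‖
    simpa using h1
  have hker : (⊤ : Submodule ℂ C(UnitAddTorus (Fin n), ℂ)) ≤ LinearMap.ker L := by
    rw [← UnitAddTorus.span_mFourier_closure_eq_top]
    refine Submodule.topologicalClosure_minimal _ ?_ ?_
    · rw [Submodule.span_le]
      rintro _ ⟨k, rfl⟩
      exact hmon k
    · exact isClosed_singleton.preimage hLc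
  have h0 : ∫ t, (star v) t * v t ∂(tm n) = 0 := hker (Submodule.mem_top (x := star v))
  have h1 : ∫ t, (‖v t‖ ^ 2 : ℝ) ∂(tm n) = 0 := by
    have : ∫ t, (star v) t * v t ∂(tm n) = ((∫ t, (‖v t‖ ^ 2 : ℝ) ∂(tm n) : ℝ) : ℂ) := by
      rw [← integral_complex_ofReal]
      refine integral_congr_ae (Filter.Eventually.of_forall fun t => ?_)
      simp only [ContinuousMap.star_apply, RCLike.star_def]
      rw [← Complex.normSq_eq_conj_mul_self, Complex.normSq_eq_norm_sq]
    rw [this] at h0
    exact_mod_cast h0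
  have h2 : (fun t => (‖v t‖ ^ 2 : ℝ)) =ᵐ[tm n] 0 := by
    rwa [integral_eq_zero_iff_of_nonneg (fun t => by positivity)] at h1
    exact (Continuous.integrable_of_hasCompactSupport (by fun_prop)
      (HasCompactSupport.of_compactSpace _))
  have h3 : (fun t => (‖v t‖ ^ 2 : ℝ)) = 0 :=
    (Continuous.ae_eq_iff_eq (tm n) (by fun_prop) continuous_zero).mp h2
  intro t
  have h4 := congrFun h3 t
  simp only [Pi.zero_apply, ne_eq, OfNat.ofNat_ne_zero, not_false_eq_true, pow_eq_zero_iff,
    norm_eq_zero] at h4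
  exact sub_eq_zero.mp h4

end Pool.Agent.N287.HS
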