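import Mathlib

set_option autoImplicit false

/-! The Hilbert-Schmidt sum over an orthonormal family is bounded by the one over a basis. -/

namespace Pool.Agent.N287.HS

open scoped InnerProductSpace

variable {E F : Type*} [NormedAddCommGroup E] [InnerProductSpace ℂ E]
  [NormedAddCommGroup F] [InnerProductSpace ℂ F] [CompleteSpace F]

lemma complete_of_basis {ι : Type*} (b : HilbertBasis ι ℂ E) : CompleteSpace E :=
  (completeSpace_congr (e := b.repr.toEquiv) b.repr.isometry.isUniformEmbedding).mpr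
    inferInstance

/-- For an operator `T` with `∑ ‖T b_i‖² < ∞` for one Hilbert basis `b`, the sums of `‖T v_k‖²`
over orthonormal families are bounded. -/
theorem hs_bound (T : E →L[ℂ] F) {ι : Type*} (b : HilbertBasis ι ℂ E)
    (hs : Summable fun i => ‖T (b i)‖ ^ 2) {κ : Type*} (v : κ → E) (hv : Orthonormal ℂ v)
    (s : Finset κ) : ∑ k ∈ s, ‖T (v k)‖ ^ 2 ≤ ∑' i, ‖T (b i)‖ ^ 2 := by
  classical
  haveI : CompleteSpace E := complete_of_basis b
  -- the finite dimensional space spanned by the `T v_k`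
  set S : Submodule ℂ F := Submodule.span ℂ ((s.image fun k => T (v k) : Finset F) : Set F) with hS
  haveI : FiniteDimensional ℂ S := FiniteDimensional.span_finset ℂ _
  set f := stdOrthonormalBasis ℂ S with hf
  have hfo : Orthonormal ℂ fun j => (f j : F) := by
    have := f.orthonormal
    exact this.comp_linearIsometry S.subtypeₗᵢ
  -- expansion of `‖T v_k‖²`
  have h1 : ∀ k ∈ s, ‖T (v k)‖ ^ 2 = ∑ j, ‖⟪T.adjoint (f j : F), v k⟫_ℂ‖ ^ 2 := by
    intro k hk
    have hm : T (v k) ∈ S := Submodule.subset_span (by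
      simp only [Finset.coe_image, Set.mem_image, Finset.mem_coe]; exact ⟨k, hk, rfl⟩)
    have h2 := f.sum_sq_norm_inner_right (⟨T (v k), hm⟩ : S)
    have h3 : ‖(⟨T (v k), hm⟩ : S)‖ = ‖T (v k)‖ := rfl
    rw [h3] at h2
    rw [← h2]
    refine Finset.sum_congr rfl fun j _ => ?_
    congr 2
    rw [ContinuousLinearMap.adjoint_inner_left]
    rfl
  rw [Finset.sum_congr rfl h1, Finset.sum_comm]
  -- Bessel in `E`, Parseval in `E`
  have h4 : ∀ j, ∑ k ∈ s, ‖⟪T.adjoint (f j : F), v k⟫_ℂ‖ ^ 2 ≤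
      ∑' i, ‖⟪(f j : F), T (b i)⟫_ℂ‖ ^ 2 := by
    intro j
    have h5 : ∑ k ∈ s, ‖⟪v k, T.adjoint (f j : F)⟫_ℂ‖ ^ 2 ≤ ‖T.adjoint (f j : F)‖ ^ 2 :=
      hv.sum_inner_products_le _
    have h6 : HasSum (fun i => ‖⟪b i, T.adjoint (f j : F)⟫_ℂ‖ ^ 2) (‖T.adjoint (f j : F)‖ ^ 2) := by
      have h := b.hasSum_inner_mul_inner (T.adjoint (f j : F)) (T.adjoint (f j : F))
      have h' := (Complex.hasSum_re h)
      convert h' using 1
      · funext i
        rw [← inner_conj_symm (T.adjoint (f j : F)) (b i), ← Complex.normSq_eq_conj_mul_self,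
          Complex.ofReal_re, Complex.normSq_eq_norm_sq]
      · rw [inner_self_eq_norm_sq_to_K]
        norm_cast
    have h7 : ∀ i, ‖⟪(f j : F), T (b i)⟫_ℂ‖ ^ 2 = ‖⟪b i, T.adjoint (f j : F)⟫_ℂ‖ ^ 2 := by
      intro i
      rw [ContinuousLinearMap.adjoint_inner_right, norm_inner_symm]
    simp_rw [h7]
    rw [h6.tsum_eq]
    refine le_trans (le_of_eq ?_) h5
    refine Finset.sum_congr rfl fun k _ => ?_
    rw [norm_inner_symm]
  refine (Finset.sum_le_sum fun j _ => h4 j).trans ?_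
  have h8 : ∀ j, Summable fun i => ‖⟪(f j : F), T (b i)⟫_ℂ‖ ^ 2 := by
    intro j
    refine Summable.of_nonneg_of_le (fun i => by positivity) (fun i => ?_) hs
    have h9 : ‖⟪(f j : F), T (b i)⟫_ℂ‖ ≤ ‖(f j : F)‖ * ‖T (b i)‖ := norm_inner_le_norm _ _
    rw [hfo.1 j, one_mul] at h9
    gcongr
  rw [← Summable.tsum_finsetSum fun j _ => h8 j]
  refine Summable.tsum_le_tsum (fun i => ?_) (summable_sum fun j _ => h8 j) hs
  exact hfo.sum_inner_products_le (s := Finset.univ) (T (b i))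

end Pool.Agent.N287.HS
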