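import Pool.Agent.N287.HS.Defs
import Pool.Agent.N287.HS.Formula
import Pool.Agent.N287.HS.HSB

set_option autoImplicit false

/-! The key inequality for the Hankel operator on Laurent monomials. -/

namespace Pool.Agent.N287.HS

open MeasureTheory Filter Topology ComplexConjugate Metric
open scoped InnerProductSpace
open Pool.Agent.Helper853.Bk

variable {n : ℕ}

lemma inner_toLp {Ω : Set (Fin n → ℂ)} {u v : (Fin n → ℂ) → ℂ}
    (hu : MemLp u 2 (volume.restrict Ω)) (hv : MemLp v 2 (volume.restrict Ω)) :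
    ⟪hu.toLp u, hv.toLp v⟫_ℂ = ∫ z in Ω, conj (u z) * v z := by
  rw [L2.inner_def]
  refine integral_congr_ae ?_
  filter_upwards [hu.coeFn_toLp, hv.coeFn_toLp] with z h1 h2
  rw [h1, h2, RCLike.inner_apply, mul_comm]

lemma inner_toLp_left {Ω : Set (Fin n → ℂ)} {u : (Fin n → ℂ) → ℂ}
    (hu : MemLp u 2 (volume.restrict Ω)) (v : L2 Ω) :
    ⟪hu.toLp u, v⟫_ℂ = ∫ z in Ω, conj (u z) * v z := by
  rw [L2.inner_def]
  refine integral_congr_ae ?_
  filter_upwards [hu.coeFn_toLp] with z h1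
  rw [h1, RCLike.inner_apply, mul_comm]

/-- The adjoint of a Hankel operator with conjugate holomorphic symbol. -/
theorem pairing {Ω : Set (Fin n → ℂ)} {f : (Fin n → ℂ) → ℂ}
    (hD : Dense (hankelDom Ω fun z => conj (f z)))
    {T : bergman Ω →L[ℂ] L2 Ω}
    (hT : ∀ (g : bergman Ω) (hg : g ∈ hankelDom Ω fun z => conj (f z)),
      T g = hankel Ω (fun z => conj (f z)) g hg)
    {h : (Fin n → ℂ) → ℂ} (hh : MemLp h 2 (volume.restrict Ω))
    (hfh : MemLp (fun z => f z * h z) 2 (volume.restrict Ω))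
    (ho : ∀ g ∈ bergman Ω, ⟪hh.toLp h, g⟫_ℂ = 0) (g : bergman Ω) :
    ⟪hh.toLp h, T g⟫_ℂ = ⟪hfh.toLp (fun z => f z * h z), (g : L2 Ω)⟫_ℂ := by
  have hc1 : Continuous fun g : bergman Ω => ⟪hh.toLp h, T g⟫_ℂ :=
    continuous_const.inner T.continuous
  have hc2 : Continuous fun g : bergman Ω =>
      ⟪hfh.toLp (fun z => f z * h z), (g : L2 Ω)⟫_ℂ :=
    continuous_const.inner continuous_subtype_val
  refine congrFun (Continuous.ext_on hD hc1 hc2 fun g hg => ?_) g
  rw [hT g hg, hankel, inner_sub_right]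
  have hmem : bergmanProj Ω (MemLp.toLp (fun z => conj (f z) * (g : L2 Ω) z) hg) ∈
      (bergman Ω).topologicalClosure := Submodule.starProjection_apply_mem _ _
  have horth : hh.toLp h ∈ ((bergman Ω).topologicalClosure)ᗮ := by
    rw [Submodule.orthogonal_closure]
    rw [Submodule.mem_orthogonal']
    exact ho
  have h0 : ⟪hh.toLp h, bergmanProj Ω (MemLp.toLp (fun z => conj (f z) * (g : L2 Ω) z) hg)⟫_ℂ = 0 :=
    (Submodule.mem_orthogonal' _ _).mp horth _ hmem
  rw [h0, sub_zero]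
  rw [inner_toLp hh hg, inner_toLp_left hfh]
  refine integral_congr_ae (Filter.Eventually.of_forall fun z => ?_)
  simp only [map_mul]
  ring

/-- Exponents of the Laurent monomials in the Bergman space. -/
structure InS (Ω : Set (Fin n → ℂ)) (β : Fin n → ℤ) : Prop where
  mem : MemLp (mon β) 2 (volume.restrict Ω)
  hol : ∃ G : (Fin n → ℂ) → ℂ, DifferentiableOn ℂ G Ω ∧ ∀ z ∈ Ω, (∀ j, z j ≠ 0) → G z = mon β z

/-- The Laurent monomial as an element of the Bergman space. -/
noncomputable def InS.e {Ω : Set (Fin n → ℂ)} (hΩ : IsOpen Ω) {β : Fin n → ℤ} (h : InS Ω β) :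
    bergman Ω :=
  ⟨h.mem.toLp (mon β), by
    obtain ⟨G, hG, hGe⟩ := h.hol
    refine ⟨G, hG, ?_⟩
    filter_upwards [h.mem.coeFn_toLp, ae_restrict_of_ae (ae_ne_zero (n := n)),
      ae_restrict_mem hΩ.measurableSet] with z h1 h2 h3
    rw [h1, hGe z h3 h2]⟩

lemma restrict_KK (Ω : Set (Fin n → ℂ)) (m : ℕ) :
    ((volume : Measure (Fin n → ℂ)).restrict Ω).restrict (KK Ω m) = volume.restrict (KK Ω m) :=
  Measure.restrict_restrict_of_subset KK_sub

lemma memLp_test {Ω : Set (Fin n → ℂ)} (hb : Bornology.IsBounded Ω) (m : ℕ)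
    {F : (Fin n → ℂ) → ℂ} (hF : ContinuousOn F (KK Ω m)) :
    MemLp ((KK Ω m).indicator F) 2 (volume.restrict Ω) := by
  have hK := isCompact_KK hb m
  rw [memLp_indicator_iff_restrict hK.measurableSet, restrict_KK]
  have : IsFiniteMeasure (volume.restrict (KK Ω m)) :=
    ⟨by rw [Measure.restrict_apply_univ]; exact hK.measure_lt_top⟩
  obtain ⟨C, hC⟩ := hK.exists_bound_of_continuousOn hF
  exact MemLp.of_bound (hF.aestronglyMeasurable hK.measurableSet) C
    ((ae_restrict_iff' hK.measurableSet).mpr (Filter.Eventually.of_forall hC))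

lemma integral_test {Ω : Set (Fin n → ℂ)} (m : ℕ) (F G : (Fin n → ℂ) → ℂ) :
    ∫ z in Ω, conj ((KK Ω m).indicator F z) * G z = ∫ z in KK Ω m, conj (F z) * G z := by
  have h1 : ∀ z, conj ((KK Ω m).indicator F z) * G z =
      (KK Ω m).indicator (fun z => conj (F z) * G z) z := by
    intro z
    by_cases hz : z ∈ KK Ω m
    · simp [hz]
    · simp [hz]
  simp_rw [h1]
  rw [integral_indicator (isClosed_KK Ω m).measurableSet, restrict_KK]

theorem test_ineq {Ω : Set (Fin n → ℂ)} (hΩ : IsOpen Ω) (hb : Bornology.IsBounded Ω)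
    (hR : ModInv Ω)
    {f : (Fin n → ℂ) → ℂ} (hf : ContinuousOn f Ω)
    (hD : Dense (hankelDom Ω fun z => conj (f z)))
    {T : bergman Ω →L[ℂ] L2 Ω}
    (hT : ∀ (g : bergman Ω) (hg : g ∈ hankelDom Ω fun z => conj (f z)),
      T g = hankel Ω (fun z => conj (f z)) g hg)
    {γ α : Fin n → ℤ} (hα : InS Ω α) {a : ℂ}
    (ha : ∀ z ∈ Ω, (∀ j, z j ≠ 0) → comp γ f z = a * mon γ z) (m : ℕ)
    {φ : (Fin n → ℂ) → ℝ} (hφ : ContinuousOn φ (KK Ω m)) (hφr : ∀ t z, φ (rt t z) = φ z)
    (ho : ∀ G : (Fin n → ℂ) → ℂ, DifferentiableOn ℂ G Ω → MemLp G 2 (volume.restrict Ω) →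
      ∫ z in KK Ω m, mon γ z * conj (mon α z) * φ z * G z = 0) :
    ‖a‖ * |∫ z in KK Ω m, ‖mon γ z‖ ^ 2 * ‖mon α z‖ ^ 2 * φ z| ≤
      √(∫ z in KK Ω m, ‖mon γ z‖ ^ 2 * ‖mon α z‖ ^ 2 * φ z ^ 2) * ‖T (hα.e hΩ)‖ := by
  have hK := isCompact_KK hb m
  set F : (Fin n → ℂ) → ℂ := fun z => conj (mon γ z) * mon α z * φ z with hF
  have hFc : ContinuousOn F (KK Ω m) := by
    refine ContinuousOn.mul (ContinuousOn.mul ?_ (continuousOn_mon α)) ?_
    · exact Complex.continuous_conj.comp_continuousOn (continuousOn_mon γ)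
    · exact Complex.continuous_ofReal.comp_continuousOn hφ
  have hh := memLp_test hb m hFc
  have hfF : ContinuousOn (fun z => f z * F z) (KK Ω m) := (hf.mono KK_sub).mul hFc
  have hfh : MemLp (fun z => f z * (KK Ω m).indicator F z) 2 (volume.restrict Ω) := by
    have h1 := memLp_test hb m hfF
    have h2 : (KK Ω m).indicator (fun z => f z * F z) =
        fun z => f z * (KK Ω m).indicator F z := by
      funext z
      by_cases hz : z ∈ KK Ω m
      · simp [hz]
      · simp [hz]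
    rwa [h2] at h1
  have hpair := pairing hD hT hh hfh ?_ (hα.e hΩ)
  · -- the left side
    have h1 : ⟪hfh.toLp (fun z => f z * (KK Ω m).indicator F z), ((hα.e hΩ : bergman Ω) : L2 Ω)⟫_ℂ =
        conj a * ((∫ z in KK Ω m, ‖mon γ z‖ ^ 2 * ‖mon α z‖ ^ 2 * φ z : ℝ) : ℂ) := by
      have e1 : ((hα.e hΩ : bergman Ω) : L2 Ω) = hα.mem.toLp (mon α) := rfl
      rw [e1, inner_toLp hfh hα.mem]
      have e2 : ∀ z, conj (f z * (KK Ω m).indicator F z) * mon α z =
          conj ((KK Ω m).indicator F z) * (conj (f z) * mon α z) := by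
        intro z; rw [map_mul]; ring
      simp_rw [e2]
      rw [integral_test]
      have hψc : ContinuousOn (fun z => ((‖mon α z‖ ^ 2 * φ z : ℝ) : ℂ)) (KK Ω m) :=
        Complex.continuous_ofReal.comp_continuousOn
          ((((continuousOn_mon α).norm).pow 2).mul hφ)
      have e3 := comp_formula hb hR hf γ m hψc (fun t z => by
        rw [hφr, mon_rt, norm_mul, norm_mFourier, one_mul]) ha
      have e4 : ∫ z in KK Ω m, conj (F z) * (conj (f z) * mon α z) =
          conj (∫ z in KK Ω m, f z * conj (mon γ z) * ((‖mon α z‖ ^ 2 * φ z : ℝ) : ℂ)) := by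
        rw [← integral_conj]
        refine integral_congr_ae (Filter.Eventually.of_forall fun z => ?_)
        simp only [hF, map_mul, Complex.conj_conj, Complex.conj_ofReal]
        have : ((‖mon α z‖ ^ 2 * φ z : ℝ) : ℂ) = mon α z * conj (mon α z) * φ z := by
          rw [Complex.mul_conj, Complex.normSq_eq_norm_sq]; push_cast; ring
        rw [this]
        ring
      rw [e4, e3, map_mul]
      congr 1
      rw [← integral_conj, ← integral_complex_ofReal]
      refine integral_congr_ae (Filter.Eventually.of_forall fun z => ?_)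
      simp only [map_mul, Complex.conj_ofReal]
      push_cast
      ring
    have h2 : ‖⟪hh.toLp ((KK Ω m).indicator F), T (hα.e hΩ)⟫_ℂ‖ ≤
        ‖hh.toLp ((KK Ω m).indicator F)‖ * ‖T (hα.e hΩ)‖ := norm_inner_le_norm _ _
    have h3 : ‖hh.toLp ((KK Ω m).indicator F)‖ =
        √(∫ z in KK Ω m, ‖mon γ z‖ ^ 2 * ‖mon α z‖ ^ 2 * φ z ^ 2) := by
      have h4 : ((‖hh.toLp ((KK Ω m).indicator F)‖ ^ 2 : ℝ) : ℂ) =
          ((∫ z in KK Ω m, ‖mon γ z‖ ^ 2 * ‖mon α z‖ ^ 2 * φ z ^ 2 : ℝ) : ℂ) := by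
        have h5 := inner_self_eq_norm_sq_to_K (𝕜 := ℂ) (hh.toLp ((KK Ω m).indicator F))
        have h6 : ((‖hh.toLp ((KK Ω m).indicator F)‖ ^ 2 : ℝ) : ℂ) =
            ⟪hh.toLp ((KK Ω m).indicator F), hh.toLp ((KK Ω m).indicator F)⟫_ℂ := by
          rw [h5]; norm_cast
        rw [h6, inner_toLp hh hh, integral_test, ← integral_complex_ofReal]
        refine setIntegral_congr_fun hK.measurableSet fun z hz => ?_
        simp only [Set.indicator_of_mem hz]
        simp only [hF, map_mul, Complex.conj_conj, Complex.conj_ofReal]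
        have e1 : ((‖mon γ z‖ : ℝ) : ℂ) ^ 2 = mon γ z * conj (mon γ z) := by
          rw [Complex.mul_conj, Complex.normSq_eq_norm_sq]; push_cast; ring
        have e2 : ((‖mon α z‖ : ℝ) : ℂ) ^ 2 = mon α z * conj (mon α z) := by
          rw [Complex.mul_conj, Complex.normSq_eq_norm_sq]; push_cast; ring
        push_cast
        rw [e1, e2]
        ring
      have h5 : ‖hh.toLp ((KK Ω m).indicator F)‖ ^ 2 =
          ∫ z in KK Ω m, ‖mon γ z‖ ^ 2 * ‖mon α z‖ ^ 2 * φ z ^ 2 := by exact_mod_cast h4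
      rw [← h5, Real.sqrt_sq (norm_nonneg _)]
    rw [hpair, h1, norm_mul, RCLike.norm_conj, Complex.norm_real, Real.norm_eq_abs, h3] at h2
    exact h2
  · rintro g ⟨G, hG, hgG⟩
    have hGm : MemLp G 2 (volume.restrict Ω) := (memLp_congr_ae hgG).mp (Lp.memLp g)
    have e1 : ⟪hh.toLp ((KK Ω m).indicator F), g⟫_ℂ = ∫ z in Ω, conj ((KK Ω m).indicator F z) * G z := by
      rw [inner_toLp_left hh]
      refine integral_congr_ae ?_
      filter_upwards [hgG] with z hz
      rw [hz]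
    rw [e1, integral_test, ← ho G hG hGm]
    refine integral_congr_ae (Filter.Eventually.of_forall fun z => ?_)
    simp only [hF, map_mul, Complex.conj_conj, Complex.conj_ofReal]

end Pool.Agent.N287.HS
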