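import Pool.Agent.N287.HS.Main1

set_option autoImplicit false

/-! The inequality `|a|² (c(α+γ) / c(α) - c(α) / c(α-γ)) ≤ ‖T e_α‖²`. -/

namespace Pool.Agent.N287.HS

open MeasureTheory Filter Topology ComplexConjugate Metric
open scoped InnerProductSpace
open Pool.Agent.Helper853.Bk

variable {n : ℕ}

/-- `∫_{K_m} |z^β|²` -/
noncomputable def Cm (Ω : Set (Fin n → ℂ)) (m : ℕ) (β : Fin n → ℤ) : ℝ :=
  ∫ z in KK Ω m, ‖mon β z‖ ^ 2

/-- `∫_Ω |z^β|²` -/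
noncomputable def cc (Ω : Set (Fin n → ℂ)) (β : Fin n → ℤ) : ℝ :=
  ∫ z in Ω, ‖mon β z‖ ^ 2

lemma Cm_nonneg (Ω : Set (Fin n → ℂ)) (m : ℕ) (β : Fin n → ℤ) : 0 ≤ Cm Ω m β :=
  integral_nonneg fun z => by positivity

lemma integrable_Cm {Ω : Set (Fin n → ℂ)} (hb : Bornology.IsBounded Ω) (m : ℕ) (β : Fin n → ℤ) :
    IntegrableOn (fun z => ‖mon β z‖ ^ 2) (KK Ω m) :=
  ContinuousOn.integrableOn_compact (isCompact_KK hb m) (((continuousOn_mon β).norm).pow 2)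

lemma measurable_mon (β : Fin n → ℤ) : Measurable (mon β) := by
  unfold mon
  fun_prop

lemma memLp_mon_iff {Ω : Set (Fin n → ℂ)} (β : Fin n → ℤ) :
    MemLp (mon β) 2 (volume.restrict Ω) ↔
      Integrable (fun z => ‖mon β z‖ ^ 2) (volume.restrict Ω) :=
  memLp_two_iff_integrable_sq_norm (measurable_mon β).aestronglyMeasurable

lemma integrable_of_bdd {Ω : Set (Fin n → ℂ)} (hΩ : IsOpen Ω) (hne : Ωᶜ.Nonempty)
    (hb : Bornology.IsBounded Ω) (β : Fin n → ℤ) {B : ℝ} (hB : ∀ᶠ m in atTop, Cm Ω m β ≤ B) :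
    Integrable (fun z => ‖mon β z‖ ^ 2) (volume.restrict Ω) := by
  refine (aecover_KK hΩ hne).integrable_of_integral_bounded_of_nonneg_ae B ?_
    (Filter.Eventually.of_forall fun z => by positivity) ?_
  · intro m
    rw [IntegrableOn, restrict_KK]
    exact integrable_Cm hb m β
  · filter_upwards [hB] with m hm
    rw [restrict_KK]
    exact hm

lemma tendsto_Cm {Ω : Set (Fin n → ℂ)} (hΩ : IsOpen Ω) (hne : Ωᶜ.Nonempty) {β : Fin n → ℤ}
    (h : Integrable (fun z => ‖mon β z‖ ^ 2) (volume.restrict Ω)) :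
    Tendsto (fun m => Cm Ω m β) atTop (𝓝 (cc Ω β)) := by
  have h1 := (aecover_KK hΩ hne).integral_tendsto_of_countably_generated h
  simp_rw [restrict_KK] at h1
  exact h1

lemma Cm_le_cc {Ω : Set (Fin n → ℂ)} {β : Fin n → ℤ} (m : ℕ)
    (h : Integrable (fun z => ‖mon β z‖ ^ 2) (volume.restrict Ω)) : Cm Ω m β ≤ cc Ω β :=
  setIntegral_mono_set h (Filter.Eventually.of_forall fun z => by positivity)
    (Filter.Eventually.of_forall (KK_sub (Ω := Ω) (m := m)))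

lemma KK_mono {Ω : Set (Fin n → ℂ)} {m k : ℕ} (h : m ≤ k) : KK Ω m ⊆ KK Ω k := by
  intro z hz
  have h1 : (1 : ℝ) / (k + 1) ≤ 1 / (m + 1) := by
    have : (m : ℝ) ≤ k := by exact_mod_cast h
    gcongr
  exact ⟨fun j => h1.trans (hz.1 j), h1.trans hz.2⟩

lemma Cm_mono {Ω : Set (Fin n → ℂ)} (hb : Bornology.IsBounded Ω) {m k : ℕ} (h : m ≤ k)
    (β : Fin n → ℤ) : Cm Ω m β ≤ Cm Ω k β :=
  setIntegral_mono_set (integrable_Cm hb k β) (Filter.Eventually.of_forall fun z => by positivity)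
    (Filter.Eventually.of_forall (KK_mono h))

lemma Cm_pos {Ω : Set (Fin n → ℂ)} (hΩ : IsOpen Ω) (hne : Ωᶜ.Nonempty) (hn : Ω.Nonempty)
    (hb : Bornology.IsBounded Ω) (β : Fin n → ℤ) : ∀ᶠ m in atTop, 0 < Cm Ω m β := by
  obtain ⟨p, hpΩ, hp0⟩ : ∃ p ∈ Ω, ∀ j, p j ≠ 0 := by
    by_contra hcon
    push Not at hcon
    have h1 : volume Ω = 0 := by
      refine measure_mono_null ?_ (ae_iff.mp (ae_ne_zero (n := n)))
      intro z hz
      obtain ⟨j, hj⟩ := hcon z hz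
      simp only [Set.mem_ofPred_eq, not_forall, not_not]
      exact ⟨j, hj⟩
    exact (hΩ.measure_pos volume hn).ne' h1
  -- an open set inside `K_m`
  set δ : ℝ := Metric.infDist p Ωᶜ with hδ
  have hδ0 : 0 < δ := by
    rw [hδ, ← hΩ.isClosed_compl.notMem_iff_infDist_pos hne]
    exact fun h => h hpΩ
  have hl : Tendsto (fun m : ℕ => (1 : ℝ) / (m + 1)) atTop (𝓝 0) :=
    tendsto_one_div_add_atTop_nhds_zero_nat
  have h2 : ∀ᶠ m : ℕ in atTop, (1 : ℝ) / (m + 1) < δ := hl.eventually_lt_const hδ0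
  have h3 : ∀ᶠ m : ℕ in atTop, ∀ j, (1 : ℝ) / (m + 1) < ‖p j‖ :=
    eventually_all.mpr fun j => hl.eventually_lt_const (norm_pos_iff.mpr (hp0 j))
  filter_upwards [h2, h3] with m h2 h3
  set O : Set (Fin n → ℂ) := (⋂ j, {z : Fin n → ℂ | (1 : ℝ) / (m + 1) < ‖z j‖}) ∩
      {z | (1 : ℝ) / (m + 1) < Metric.infDist z Ωᶜ} with hO
  have hOo : IsOpen O := by
    refine IsOpen.inter (isOpen_iInter_of_finite fun j => ?_) ?_
    · exact isOpen_lt continuous_const (by fun_prop)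
    · exact isOpen_lt continuous_const (Metric.continuous_infDist_pt _)
  have hpO : p ∈ O := ⟨Set.mem_iInter.mpr h3, h2⟩
  have hOK : O ⊆ KK Ω m := fun z hz => ⟨fun j => (Set.mem_iInter.mp hz.1 j).le, hz.2.le⟩
  rw [Cm, setIntegral_pos_iff_support_of_nonneg_ae
    (Filter.Eventually.of_forall fun z => by positivity) (integrable_Cm hb m β)]
  refine lt_of_lt_of_le (hOo.measure_pos volume ⟨p, hpO⟩) (measure_mono fun z hz => ?_)
  refine ⟨?_, hOK hz⟩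
  simp only [Function.mem_support, ne_eq, OfNat.ofNat_ne_zero, not_false_eq_true,
    pow_eq_zero_iff, norm_eq_zero]
  exact mon_ne β (KK_pos (hOK hz))

lemma norm_mon_rt (β : Fin n → ℤ) (t : UnitAddTorus (Fin n)) (z : Fin n → ℂ) :
    ‖mon β (rt t z)‖ = ‖mon β z‖ := by
  rw [mon_rt, norm_mul, norm_mFourier, one_mul]

/-- weights of the components of elements of the Bergman space -/
theorem inS_of_comp {Ω : Set (Fin n → ℂ)} (hΩ : IsOpen Ω) (hne : Ωᶜ.Nonempty)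
    (hb : Bornology.IsBounded Ω) (hR : ModInv Ω) {β : Fin n → ℤ} {G : (Fin n → ℂ) → ℂ}
    (hG : DifferentiableOn ℂ G Ω) (hG2 : MemLp G 2 (volume.restrict Ω)) {a : ℂ} (ha0 : a ≠ 0)
    (ha : ∀ z ∈ Ω, (∀ j, z j ≠ 0) → comp β G z = a * mon β z) : InS Ω β := by
  refine ⟨?_, fun z => a⁻¹ * comp β G z, ?_, ?_⟩
  · rw [memLp_mon_iff]
    refine integrable_of_bdd hΩ hne hb β (B := ‖hG2.toLp G‖ ^ 2 / ‖a‖ ^ 2)
      (Filter.Eventually.of_forall fun m => ?_)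
    have hm := memLp_test hb m (continuousOn_mon (Ω := Ω) (m := m) β)
    have h1 : ⟪hm.toLp ((KK Ω m).indicator (mon β)), hG2.toLp G⟫_ℂ = a * (Cm Ω m β : ℝ) := by
      rw [inner_toLp, integral_test]
      have h2 := comp_formula hb hR hG.continuousOn β m (ψ := fun _ => 1) continuousOn_const
        (fun _ _ => rfl) ha
      simp only [mul_one] at h2
      rw [Cm, ← integral_complex_ofReal, ← h2]
      exact integral_congr_ae (Filter.Eventually.of_forall fun z => mul_comm _ _)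
    have h3 : ‖hm.toLp ((KK Ω m).indicator (mon β))‖ ^ 2 = Cm Ω m β := by
      have h5 := inner_self_eq_norm_sq_to_K (𝕜 := ℂ) (hm.toLp ((KK Ω m).indicator (mon β)))
      rw [inner_toLp hm hm, integral_test] at h5
      have h6 : ∫ z in KK Ω m, conj (mon β z) * (KK Ω m).indicator (mon β) z =
          ((Cm Ω m β : ℝ) : ℂ) := by
        rw [Cm, ← integral_complex_ofReal]
        refine setIntegral_congr_fun (isClosed_KK Ω m).measurableSet fun z hz => ?_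
        simp only [Set.indicator_of_mem hz]
        rw [← Complex.normSq_eq_conj_mul_self, Complex.normSq_eq_norm_sq]
      rw [h6] at h5
      have h7 : ((Cm Ω m β : ℝ) : ℂ) =
          ((‖hm.toLp ((KK Ω m).indicator (mon β))‖ ^ 2 : ℝ) : ℂ) := by
        rw [h5]; push_cast; rfl
      exact (Complex.ofReal_injective h7).symm
    have h4 : ‖⟪hm.toLp ((KK Ω m).indicator (mon β)), hG2.toLp G⟫_ℂ‖ ≤
        ‖hm.toLp ((KK Ω m).indicator (mon β))‖ * ‖hG2.toLp G‖ := norm_inner_le_norm _ _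
    rw [h1, norm_mul, Complex.norm_real, Real.norm_of_nonneg (Cm_nonneg Ω m β)] at h4
    have h5 : (‖a‖ * Cm Ω m β) ^ 2 ≤ Cm Ω m β * ‖hG2.toLp G‖ ^ 2 := by
      rw [← h3, ← mul_pow]
      rw [← h3] at h4
      exact pow_le_pow_left₀ (by positivity) h4 2
    have ha' : 0 < ‖a‖ := norm_pos_iff.mpr ha0
    rw [le_div_iff₀ (by positivity)]
    rcases (Cm_nonneg Ω m β).eq_or_lt with h0 | h0
    · rw [← h0, zero_mul]; positivity
    · have h6 : Cm Ω m β * (Cm Ω m β * ‖a‖ ^ 2) ≤ Cm Ω m β * ‖hG2.toLp G‖ ^ 2 := by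
        calc Cm Ω m β * (Cm Ω m β * ‖a‖ ^ 2) = (‖a‖ * Cm Ω m β) ^ 2 := by ring
          _ ≤ _ := h5
      exact le_of_mul_le_mul_left h6 h0
  · exact (comp_differentiableOn hΩ hR β hG).const_mul _
  · intro z hz h0
    change a⁻¹ * comp β G z = _
    rw [ha z hz h0, ← mul_assoc, inv_mul_cancel₀ ha0, one_mul]

section key

variable {Ω : Set (Fin n → ℂ)} (hΩ : IsOpen Ω) (hc : IsPreconnected Ω) (hn : Ω.Nonempty)
  (hne : Ωᶜ.Nonempty) (hb : Bornology.IsBounded Ω)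
  (hR : ModInv Ω) {f : (Fin n → ℂ) → ℂ} (hf : DifferentiableOn ℂ f Ω)
  (hD : Dense (hankelDom Ω fun z => conj (f z)))
  {T : bergman Ω →L[ℂ] L2 Ω}
  (hT : ∀ (g : bergman Ω) (hg : g ∈ hankelDom Ω fun z => conj (f z)),
    T g = hankel Ω (fun z => conj (f z)) g hg)
  {γ α : Fin n → ℤ} (hα : InS Ω α) {a : ℂ}
  (ha : ∀ z ∈ Ω, (∀ j, z j ≠ 0) → comp γ f z = a * mon γ z)

lemma mon_sub_mul {z : Fin n → ℂ} (h0 : ∀ j, z j ≠ 0) : mon (α - γ) z * mon γ z = mon α z := by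
  rw [← mon_add _ _ h0, sub_add_cancel]

include hΩ hc hn hb hR hf hD hT ha in
theorem key_ineq (m : ℕ) (hC : 0 < Cm Ω m (α - γ)) :
    ‖a‖ ^ 2 * (Cm Ω m (α + γ) - Cm Ω m α ^ 2 / Cm Ω m (α - γ)) ≤ ‖T (hα.e hΩ)‖ ^ 2 := by
  set lam : ℝ := Cm Ω m α / Cm Ω m (α - γ) with hlam
  set φ : (Fin n → ℂ) → ℝ := fun z => 1 - lam * (‖mon γ z‖ ^ 2)⁻¹ with hφ
  have hK := isCompact_KK hb m
  have hKm := (isClosed_KK Ω m).measurableSet
  have hφc : ContinuousOn φ (KK Ω m) := by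
    refine continuousOn_const.sub (continuousOn_const.mul (ContinuousOn.inv₀
      (((continuousOn_mon γ).norm).pow 2) fun z hz => ?_))
    exact pow_ne_zero _ (norm_ne_zero_iff.mpr (mon_ne γ (KK_pos hz)))
  have hφr : ∀ t z, φ (rt t z) = φ z := by
    intro t z
    simp only [hφ, norm_mon_rt]
  -- pointwise identities
  have hid1 : ∀ z ∈ KK Ω m, ‖mon γ z‖ ^ 2 * ‖mon α z‖ ^ 2 * φ z =
      ‖mon (α + γ) z‖ ^ 2 - lam * ‖mon α z‖ ^ 2 := by
    intro z hz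
    have h0 := KK_pos hz
    have h1 : ‖mon γ z‖ ≠ 0 := norm_ne_zero_iff.mpr (mon_ne γ h0)
    rw [mon_add _ _ h0, norm_mul, hφ]
    field_simp
  have hid2 : ∀ z ∈ KK Ω m, ‖mon γ z‖ ^ 2 * ‖mon α z‖ ^ 2 * φ z ^ 2 =
      ‖mon (α + γ) z‖ ^ 2 - 2 * lam * ‖mon α z‖ ^ 2 + lam ^ 2 * ‖mon (α - γ) z‖ ^ 2 := by
    intro z hz
    have h0 := KK_pos hz
    have h1 : ‖mon γ z‖ ≠ 0 := norm_ne_zero_iff.mpr (mon_ne γ h0)
    have h2 : ‖mon α z‖ = ‖mon (α - γ) z‖ * ‖mon γ z‖ := by rw [← norm_mul, mon_sub_mul h0]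
    rw [mon_add _ _ h0, norm_mul, hφ, h2]
    field_simp
    ring
  have i1 := integrable_Cm hb m (α + γ)
  have i2 := integrable_Cm hb m α
  have i3 := integrable_Cm hb m (α - γ)
  have hI1 : ∫ z in KK Ω m, ‖mon γ z‖ ^ 2 * ‖mon α z‖ ^ 2 * φ z =
      Cm Ω m (α + γ) - lam * Cm Ω m α := by
    rw [setIntegral_congr_fun hKm hid1, integral_sub i1 (i2.const_mul _), integral_const_mul]
    rfl
  have hI2 : ∫ z in KK Ω m, ‖mon γ z‖ ^ 2 * ‖mon α z‖ ^ 2 * φ z ^ 2 =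
      Cm Ω m (α + γ) - lam * Cm Ω m α := by
    have e1 : ∫ z in KK Ω m, (‖mon (α + γ) z‖ ^ 2 - 2 * lam * ‖mon α z‖ ^ 2 +
        lam ^ 2 * ‖mon (α - γ) z‖ ^ 2) =
        (∫ z in KK Ω m, (‖mon (α + γ) z‖ ^ 2 - 2 * lam * ‖mon α z‖ ^ 2)) +
          ∫ z in KK Ω m, lam ^ 2 * ‖mon (α - γ) z‖ ^ 2 :=
      integral_add (i1.sub (i2.const_mul _)) (i3.const_mul _)
    rw [setIntegral_congr_fun hKm hid2, e1,
      integral_sub i1 (i2.const_mul _), integral_const_mul, integral_const_mul]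
    change Cm Ω m (α + γ) - 2 * lam * Cm Ω m α + lam ^ 2 * Cm Ω m (α - γ) = _
    have : lam * Cm Ω m (α - γ) = Cm Ω m α := by rw [hlam, div_mul_cancel₀ _ hC.ne']
    linear_combination lam * this
  have hD0 : Cm Ω m α ^ 2 / Cm Ω m (α - γ) = lam * Cm Ω m α := by rw [hlam]; ring
  have key := test_ineq hΩ hb hR hf.continuousOn hD hT hα ha m hφc hφr ?_
  · rw [hI1, hI2] at key
    rw [hD0]
    set D := Cm Ω m (α + γ) - lam * Cm Ω m α with hDdef
    have hDn : 0 ≤ D := by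
      rw [← hI2]
      exact integral_nonneg fun z => by positivity
    rw [abs_of_nonneg hDn] at key
    rcases hDn.eq_or_lt with h0 | h0
    · rw [← h0, mul_zero]; positivity
    · have hs : 0 < √D := Real.sqrt_pos.mpr h0
      have h1 : ‖a‖ * √D ≤ ‖T (hα.e hΩ)‖ := by
        refine le_of_mul_le_mul_left ?_ hs
        calc √D * (‖a‖ * √D) = ‖a‖ * (√D * √D) := by ring
          _ = ‖a‖ * D := by rw [Real.mul_self_sqrt hDn]
          _ ≤ _ := key
      calc ‖a‖ ^ 2 * D = (‖a‖ * √D) ^ 2 := by rw [mul_pow, Real.sq_sqrt hDn]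
        _ ≤ _ := pow_le_pow_left₀ (by positivity) h1 2
  · intro G hG hG2
    obtain ⟨a', ha'⟩ := comp_eq hΩ hc hR hn (α - γ) hG
    have hψc : ContinuousOn (fun z => ((‖mon γ z‖ ^ 2 * φ z : ℝ) : ℂ)) (KK Ω m) :=
      Complex.continuous_ofReal.comp_continuousOn ((((continuousOn_mon γ).norm).pow 2).mul hφc)
    have h1 := comp_formula hb hR hG.continuousOn (α - γ) m hψc
      (fun t z => by rw [hφr, norm_mon_rt]) ha'
    have h2 : ∫ z in KK Ω m, mon γ z * conj (mon α z) * φ z * G z =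
        ∫ z in KK Ω m, G z * conj (mon (α - γ) z) * ((‖mon γ z‖ ^ 2 * φ z : ℝ) : ℂ) := by
      refine setIntegral_congr_fun hKm fun z hz => ?_
      rw [← mon_sub_mul (α := α) (γ := γ) (KK_pos hz), map_mul]
      have : ((‖mon γ z‖ ^ 2 * φ z : ℝ) : ℂ) = mon γ z * conj (mon γ z) * φ z := by
        rw [Complex.mul_conj, Complex.normSq_eq_norm_sq]; push_cast; ring
      rw [this]
      ring
    rw [h2, h1]
    have h3 : ∫ z in KK Ω m, ((‖mon (α - γ) z‖ ^ 2 : ℝ) : ℂ) * ((‖mon γ z‖ ^ 2 * φ z : ℝ) : ℂ) =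
        ((Cm Ω m α - lam * Cm Ω m (α - γ) : ℝ) : ℂ) := by
      have h4 : ∀ z ∈ KK Ω m, ((‖mon (α - γ) z‖ ^ 2 : ℝ) : ℂ) * ((‖mon γ z‖ ^ 2 * φ z : ℝ) : ℂ) =
          ((‖mon α z‖ ^ 2 - lam * ‖mon (α - γ) z‖ ^ 2 : ℝ) : ℂ) := by
        intro z hz
        have h0 := KK_pos hz
        have h1 : ‖mon γ z‖ ≠ 0 := norm_ne_zero_iff.mpr (mon_ne γ h0)
        have h2 : ‖mon α z‖ = ‖mon (α - γ) z‖ * ‖mon γ z‖ := by rw [← norm_mul, mon_sub_mul h0]
        rw [← Complex.ofReal_mul, h2, hφ]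
        congr 1
        field_simp
      rw [setIntegral_congr_fun hKm h4, integral_complex_ofReal, integral_sub i2 (i3.const_mul _),
        integral_const_mul]
      rfl
    rw [h3, hlam, div_mul_cancel₀ _ hC.ne', sub_self]
    simp

include hΩ hc hn hne hb hR hf hD hT ha in
theorem key_ineq' (m : ℕ) (hS : ¬ InS Ω (α - γ)) :
    ‖a‖ ^ 2 * Cm Ω m (α + γ) ≤ ‖T (hα.e hΩ)‖ ^ 2 := by
  have hKm := (isClosed_KK Ω m).measurableSet
  have hid : ∀ z ∈ KK Ω m, ‖mon γ z‖ ^ 2 * ‖mon α z‖ ^ 2 = ‖mon (α + γ) z‖ ^ 2 := by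
    intro z hz
    rw [mon_add _ _ (KK_pos hz), norm_mul]
    ring
  have key := test_ineq hΩ hb hR hf.continuousOn hD hT hα ha m (φ := fun _ => 1)
    continuousOn_const (fun _ _ => rfl) ?_
  · simp only [mul_one, one_pow] at key
    rw [setIntegral_congr_fun hKm hid] at key
    change ‖a‖ * |Cm Ω m (α + γ)| ≤ √(Cm Ω m (α + γ)) * _ at key
    set D := Cm Ω m (α + γ) with hDdef
    have hDn : 0 ≤ D := Cm_nonneg _ _ _
    rw [abs_of_nonneg hDn] at key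
    rcases hDn.eq_or_lt with h0 | h0
    · rw [← h0, mul_zero]; positivity
    · have hs : 0 < √D := Real.sqrt_pos.mpr h0
      have h1 : ‖a‖ * √D ≤ ‖T (hα.e hΩ)‖ := by
        refine le_of_mul_le_mul_left ?_ hs
        calc √D * (‖a‖ * √D) = ‖a‖ * (√D * √D) := by ring
          _ = ‖a‖ * D := by rw [Real.mul_self_sqrt hDn]
          _ ≤ _ := key
      calc ‖a‖ ^ 2 * D = (‖a‖ * √D) ^ 2 := by rw [mul_pow, Real.sq_sqrt hDn]
        _ ≤ _ := pow_le_pow_left₀ (by positivity) h1 2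
  · intro G hG hG2
    obtain ⟨a', ha'⟩ := comp_eq hΩ hc hR hn (α - γ) hG
    have ha0 : a' = 0 := by
      by_contra h
      exact hS (inS_of_comp hΩ hne hb hR hG hG2 h ha')
    have hψc : ContinuousOn (fun z => ((‖mon γ z‖ ^ 2 : ℝ) : ℂ)) (KK Ω m) :=
      Complex.continuous_ofReal.comp_continuousOn (((continuousOn_mon γ).norm).pow 2)
    have h1 := comp_formula hb hR hG.continuousOn (α - γ) m hψc
      (fun t z => by rw [norm_mon_rt]) ha'
    rw [ha0, zero_mul] at h1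
    rw [← h1]
    refine setIntegral_congr_fun hKm fun z hz => ?_
    rw [← mon_sub_mul (α := α) (γ := γ) (KK_pos hz), map_mul]
    have : ((‖mon γ z‖ ^ 2 : ℝ) : ℂ) = mon γ z * conj (mon γ z) := by
      rw [Complex.mul_conj, Complex.normSq_eq_norm_sq]
    rw [this]
    push_cast
    ring

end key

end Pool.Agent.N287.HS
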