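import Pool.Agent.N287.HS.Main2

set_option autoImplicit false

/-! Ratios along lines of exponents. -/

namespace Pool.Agent.N287.HS

open MeasureTheory Filter Topology ComplexConjugate Metric
open scoped InnerProductSpace
open Pool.Agent.Helper853.Bk

variable {n : ℕ}

lemma InS.int {Ω : Set (Fin n → ℂ)} {β : Fin n → ℤ} (h : InS Ω β) :
    Integrable (fun z => ‖mon β z‖ ^ 2) (volume.restrict Ω) :=
  (memLp_mon_iff β).mp h.mem

lemma cc_pos {Ω : Set (Fin n → ℂ)} (hΩ : IsOpen Ω) (hne : Ωᶜ.Nonempty) (hn : Ω.Nonempty)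
    (hb : Bornology.IsBounded Ω) {β : Fin n → ℤ} (h : InS Ω β) : 0 < cc Ω β := by
  obtain ⟨m, hm⟩ := (Cm_pos hΩ hne hn hb β).exists
  exact hm.trans_le (Cm_le_cc m h.int)

open Classical in
/-- the ratio of consecutive squared norms -/
noncomputable def rho (Ω : Set (Fin n → ℂ)) (γ β : Fin n → ℤ) : ℝ :=
  if InS Ω (β - γ) then cc Ω β / cc Ω (β - γ) else 0

open Classical in
/-- `‖T ê_β‖²` -/
noncomputable def NT {Ω : Set (Fin n → ℂ)} (hΩ : IsOpen Ω) (T : bergman Ω →L[ℂ] L2 Ω)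
    (β : Fin n → ℤ) : ℝ :=
  if h : InS Ω β then ‖T (h.e hΩ)‖ ^ 2 / cc Ω β else 0

section step

variable {Ω : Set (Fin n → ℂ)} (hΩ : IsOpen Ω) (hc : IsPreconnected Ω) (hn : Ω.Nonempty)
  (hne : Ωᶜ.Nonempty) (hb : Bornology.IsBounded Ω)
  (hR : ModInv Ω) {f : (Fin n → ℂ) → ℂ} (hf : DifferentiableOn ℂ f Ω)
  (hD : Dense (hankelDom Ω fun z => conj (f z)))
  {T : bergman Ω →L[ℂ] L2 Ω}
  (hT : ∀ (g : bergman Ω) (hg : g ∈ hankelDom Ω fun z => conj (f z)),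
    T g = hankel Ω (fun z => conj (f z)) g hg)
  {γ α : Fin n → ℤ} {a : ℂ} (ha0 : a ≠ 0)
  (ha : ∀ z ∈ Ω, (∀ j, z j ≠ 0) → comp γ f z = a * mon γ z)

include hΩ hc hn hne hb hR hf hD hT ha ha0 in
theorem inS_add (hα : InS Ω α) : InS Ω (α + γ) := by
  refine ⟨?_, ?_⟩
  · rw [memLp_mon_iff]
    obtain ⟨m0, hm0⟩ := (eventually_atTop.mp (Cm_pos hΩ hne hn hb (α - γ)))
    refine integrable_of_bdd hΩ hne hb (α + γ)
      (B := ‖T (hα.e hΩ)‖ ^ 2 / ‖a‖ ^ 2 + cc Ω α ^ 2 / Cm Ω m0 (α - γ)) ?_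
    filter_upwards [eventually_ge_atTop m0] with m hm
    have hpos0 := hm0 m0 le_rfl
    have hpos := hm0 m hm
    have h1 := key_ineq hΩ hc hn hb hR hf hD hT hα ha m hpos
    have h2 : Cm Ω m α ^ 2 / Cm Ω m (α - γ) ≤ cc Ω α ^ 2 / Cm Ω m0 (α - γ) := by
      have h3 := Cm_le_cc m hα.int
      have h4 := Cm_mono hb hm (α - γ)
      have h5 := Cm_nonneg Ω m α
      gcongr
    have ha' : 0 < ‖a‖ := norm_pos_iff.mpr ha0
    have h3 : Cm Ω m (α + γ) - Cm Ω m α ^ 2 / Cm Ω m (α - γ) ≤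
        ‖T (hα.e hΩ)‖ ^ 2 / ‖a‖ ^ 2 := by
      rw [le_div_iff₀ (by positivity)]; linarith
    linarith
  · obtain ⟨G, hG, hGe⟩ := hα.hol
    refine ⟨fun z => a⁻¹ * (G z * comp γ f z),
      (hG.mul (comp_differentiableOn hΩ hR γ hf)).const_mul _, ?_⟩
    intro z hz h0
    change a⁻¹ * (G z * comp γ f z) = _
    rw [hGe z hz h0, ha z hz h0, mon_add _ _ h0]
    field_simp

include hΩ hc hn hne hb hR hf hD hT ha ha0 in
theorem inS_add_nsmul (hα : InS Ω α) (k : ℕ) : InS Ω (α + k • γ) := by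
  induction k with
  | zero => simpa using hα
  | succ k ih =>
    have := inS_add hΩ hc hn hne hb hR hf hD hT ha0 ha ih
    rwa [succ_nsmul, ← add_assoc]

include hΩ hc hn hne hb hR hf hD hT ha ha0 in
theorem step_ineq (hα : InS Ω α) :
    ‖a‖ ^ 2 * (rho Ω γ (α + γ) - rho Ω γ α) ≤ NT hΩ T α := by
  have hS' := inS_add hΩ hc hn hne hb hR hf hD hT ha0 ha hα
  have hcα := cc_pos hΩ hne hn hb hα
  have hN : NT hΩ T α = ‖T (hα.e hΩ)‖ ^ 2 / cc Ω α := by
    rw [NT, dif_pos hα]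
  have hr1 : rho Ω γ (α + γ) = cc Ω (α + γ) / cc Ω α := by
    rw [rho, add_sub_cancel_right, if_pos hα]
  rw [hN, hr1, le_div_iff₀ hcα]
  have l1 := tendsto_Cm hΩ hne hS'.int
  have l2 := tendsto_Cm hΩ hne hα.int
  by_cases hS : InS Ω (α - γ)
  · have hcm := cc_pos hΩ hne hn hb hS
    have l3 := tendsto_Cm hΩ hne hS.int
    have hr2 : rho Ω γ α = cc Ω α / cc Ω (α - γ) := by rw [rho, if_pos hS]
    have l4 : Tendsto (fun m => ‖a‖ ^ 2 * (Cm Ω m (α + γ) - Cm Ω m α ^ 2 / Cm Ω m (α - γ)))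
        atTop (𝓝 (‖a‖ ^ 2 * (cc Ω (α + γ) - cc Ω α ^ 2 / cc Ω (α - γ)))) :=
      (l1.sub ((l2.pow 2).div l3 hcm.ne')).const_mul _
    have h5 := le_of_tendsto l4 (b := ‖T (hα.e hΩ)‖ ^ 2) (by
      filter_upwards [Cm_pos hΩ hne hn hb (α - γ)] with m hm
      exact key_ineq hΩ hc hn hb hR hf hD hT hα ha m hm)
    refine le_trans (le_of_eq ?_) h5
    rw [hr2]
    field_simp
  · have hr2 : rho Ω γ α = 0 := by rw [rho, if_neg hS]
    have l4 : Tendsto (fun m => ‖a‖ ^ 2 * Cm Ω m (α + γ))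
        atTop (𝓝 (‖a‖ ^ 2 * cc Ω (α + γ))) := l1.const_mul _
    have h5 := le_of_tendsto l4 (b := ‖T (hα.e hΩ)‖ ^ 2)
      (Filter.Eventually.of_forall fun m =>
        key_ineq' hΩ hc hn hne hb hR hf hD hT hα ha m hS)
    refine le_trans (le_of_eq ?_) h5
    rw [hr2]
    field_simp
    ring

include hΩ hc hn hne hb hR hf hD hT ha ha0 in
theorem telescope (hα : InS Ω α) (K : ℕ) :
    ‖a‖ ^ 2 * (rho Ω γ (α + K • γ) - rho Ω γ α) ≤
      ∑ k ∈ Finset.range K, NT hΩ T (α + k • γ) := by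
  induction K with
  | zero => simp
  | succ K ih =>
    rw [Finset.sum_range_succ]
    have h1 := step_ineq hΩ hc hn hne hb hR hf hD hT ha0 ha
      (inS_add_nsmul hΩ hc hn hne hb hR hf hD hT ha0 ha hα K)
    rw [succ_nsmul, ← add_assoc]
    linarith

end step

/-- growth contradiction -/
lemma growth {x : ℕ → ℝ} {r τ c : ℝ} (hr : 0 < r) (hτ : r < τ) (hc : 0 < c)
    (h1 : ∀ k, x (k + 1) ≤ r * x k) (h2 : ∀ k, τ ^ k * c ≤ x k) : False := by
  have h3 : ∀ k, x k ≤ r ^ k * x 0 := by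
    intro k
    induction k with
    | zero => simp
    | succ k ih =>
      calc x (k + 1) ≤ r * x k := h1 k
        _ ≤ r * (r ^ k * x 0) := by gcongr
        _ = r ^ (k + 1) * x 0 := by ring
  have h4 : Tendsto (fun k : ℕ => (τ / r) ^ k) atTop atTop :=
    tendsto_pow_atTop_atTop_of_one_lt (by rwa [one_lt_div hr])
  obtain ⟨k, hk⟩ := (h4.eventually_gt_atTop (x 0 / c)).exists
  have h5 := (h2 k).trans (h3 k)
  rw [div_pow, div_lt_div_iff₀ hc (by positivity)] at hk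
  linarith

/-- lower bound for the norms along a line -/
lemma lower {Ω : Set (Fin n → ℂ)} {U : Set (Fin n → ℂ)} (hU : U ⊆ Ω) (hUo : IsOpen U)
    (hUn : U.Nonempty) (hU0 : ∀ z ∈ U, ∀ j, z j ≠ 0) {δ β : Fin n → ℤ} {τ : ℝ} (hτ0 : 0 ≤ τ)
    (hτ : ∀ z ∈ U, τ ≤ ‖mon δ z‖ ^ 2) (hS : ∀ k : ℕ, InS Ω (β + k • δ)) :
    ∃ c > 0, ∀ k : ℕ, τ ^ k * c ≤ cc Ω (β + k • δ) := by
  have hint : ∀ k : ℕ, IntegrableOn (fun z => ‖mon (β + k • δ) z‖ ^ 2) U := fun k =>
    IntegrableOn.mono_set (hS k).int hU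
  refine ⟨∫ z in U, ‖mon β z‖ ^ 2, ?_, ?_⟩
  · have h0 : IntegrableOn (fun z => ‖mon β z‖ ^ 2) U := by simpa using hint 0
    rw [gt_iff_lt, setIntegral_pos_iff_support_of_nonneg_ae
      (Filter.Eventually.of_forall fun z => by positivity) h0]
    refine lt_of_lt_of_le (hUo.measure_pos volume hUn) (measure_mono fun z hz => ?_)
    refine ⟨?_, hz⟩
    simp only [Function.mem_support, ne_eq, OfNat.ofNat_ne_zero, not_false_eq_true,
      pow_eq_zero_iff, norm_eq_zero]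
    exact mon_ne β (hU0 z hz)
  · intro k
    have h1 : τ ^ k * ∫ z in U, ‖mon β z‖ ^ 2 ≤ ∫ z in U, ‖mon (β + k • δ) z‖ ^ 2 := by
      induction k with
      | zero => simp
      | succ k ih =>
        have h2 : τ * ∫ z in U, ‖mon (β + k • δ) z‖ ^ 2 ≤
            ∫ z in U, ‖mon (β + (k + 1) • δ) z‖ ^ 2 := by
          rw [← integral_const_mul]
          refine setIntegral_mono_on ((hint k).const_mul _) (hint (k + 1)) hUo.measurableSet
            fun z hz => ?_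
          have e : mon (β + (k + 1) • δ) z = mon (β + k • δ) z * mon δ z := by
            rw [succ_nsmul, ← add_assoc, mon_add (β + k • δ) δ (hU0 z hz)]
          rw [e, norm_mul, mul_pow, mul_comm]
          exact mul_le_mul_of_nonneg_left (hτ z hz) (by positivity)
        calc τ ^ (k + 1) * ∫ z in U, ‖mon β z‖ ^ 2 = τ * (τ ^ k * ∫ z in U, ‖mon β z‖ ^ 2) := by ring
          _ ≤ τ * ∫ z in U, ‖mon (β + k • δ) z‖ ^ 2 := by gcongr
          _ ≤ _ := h2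
    refine h1.trans ?_
    exact setIntegral_mono_set (hS k).int (Filter.Eventually.of_forall fun z => by positivity)
      (Filter.Eventually.of_forall hU)

end Pool.Agent.N287.HS
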