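import Pool.Agent.N287.HS.Main3

set_option autoImplicit false

/-! The conclusion: `a_γ ≠ 0` for some `γ ≠ 0` contradicts the Hilbert-Schmidt property. -/

namespace Pool.Agent.N287.HS

open MeasureTheory Filter Topology ComplexConjugate Metric
open scoped InnerProductSpace
open Pool.Agent.Helper853.Bk

variable {n : ℕ}

lemma inner_e {Ω : Set (Fin n → ℂ)} (hΩ : IsOpen Ω) {α β : Fin n → ℤ} (hα : InS Ω α)
    (hβ : InS Ω β) : ⟪hα.e hΩ, hβ.e hΩ⟫_ℂ = ∫ z in Ω, conj (mon α z) * mon β z :=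
  inner_toLp hα.mem hβ.mem

lemma norm_e_sq {Ω : Set (Fin n → ℂ)} (hΩ : IsOpen Ω) {β : Fin n → ℤ} (hβ : InS Ω β) :
    ‖hβ.e hΩ‖ ^ 2 = cc Ω β := by
  have h5 := inner_self_eq_norm_sq_to_K (𝕜 := ℂ) (hβ.e hΩ)
  rw [inner_e hΩ hβ hβ] at h5
  have h6 : ∫ z in Ω, conj (mon β z) * mon β z = ((cc Ω β : ℝ) : ℂ) := by
    rw [cc, ← integral_complex_ofReal]
    refine integral_congr_ae (Filter.Eventually.of_forall fun z => ?_)
    simp only
    rw [← Complex.normSq_eq_conj_mul_self, Complex.normSq_eq_norm_sq]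
  rw [h6] at h5
  have h7 : ((cc Ω β : ℝ) : ℂ) = ((‖hβ.e hΩ‖ ^ 2 : ℝ) : ℂ) := by
    rw [h5]; push_cast; rfl
  exact (Complex.ofReal_injective h7).symm

lemma inner_e_ne {Ω : Set (Fin n → ℂ)} (hΩ : IsOpen Ω) (hR : ModInv Ω) {α β : Fin n → ℤ}
    (hα : InS Ω α) (hβ : InS Ω β) (h : α ≠ β) : ⟪hα.e hΩ, hβ.e hΩ⟫_ℂ = 0 := by
  rw [inner_e]
  obtain ⟨s, hs⟩ := exists_mFourier_neg_one (sub_ne_zero.mpr h.symm : β - α ≠ 0)
  have h1 := (measurePreserving_rt s).setIntegral_preimage_emb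
    (rtH s).measurableEmbedding (fun z => conj (mon α z) * mon β z) Ω
  have h2 : rt s ⁻¹' Ω = Ω := by
    ext z; exact hR.rt_mem s
  rw [h2] at h1
  have h3 : ∀ z, conj (mon α (rt s z)) * mon β (rt s z) = - (conj (mon α z) * mon β z) := by
    intro z
    rw [mon_rt, mon_rt, map_mul, conj_mFourier_mul]
    have h4 : (UnitAddTorus.mFourier (-α) s : ℂ) * UnitAddTorus.mFourier β s = -1 := by
      rw [← hs, sub_eq_add_neg, add_comm β, UnitAddTorus.mFourier_add]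
    linear_combination (conj (mon α z) * mon β z) * h4
  simp_rw [h3] at h1
  rw [integral_neg] at h1
  have h4 : (2 : ℂ) * ∫ z in Ω, conj (mon α z) * mon β z = 0 := by
    linear_combination -h1
  simpa using h4

/-- normalized monomials -/
noncomputable def eh {Ω : Set (Fin n → ℂ)} (hΩ : IsOpen Ω) (β : {β : Fin n → ℤ // InS Ω β}) :
    bergman Ω :=
  (((√(cc Ω β.1))⁻¹ : ℝ) : ℂ) • β.2.e hΩ

lemma norm_eh_T {Ω : Set (Fin n → ℂ)} (hΩ : IsOpen Ω) (hne : Ωᶜ.Nonempty) (hn : Ω.Nonempty)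
    (hb : Bornology.IsBounded Ω) (T : bergman Ω →L[ℂ] L2 Ω) (β : {β : Fin n → ℤ // InS Ω β}) :
    ‖T (eh hΩ β)‖ ^ 2 = NT hΩ T β.1 := by
  have hpos := cc_pos hΩ hne hn hb β.2
  rw [NT, dif_pos β.2, eh, map_smul, norm_smul, mul_pow, Complex.norm_real, Real.norm_eq_abs,
    sq_abs, inv_pow, Real.sq_sqrt hpos.le, div_eq_inv_mul]

lemma orthonormal_eh {Ω : Set (Fin n → ℂ)} (hΩ : IsOpen Ω) (hne : Ωᶜ.Nonempty) (hn : Ω.Nonempty)
    (hb : Bornology.IsBounded Ω) (hR : ModInv Ω) : Orthonormal ℂ (eh hΩ) := by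
  refine ⟨fun β => ?_, fun α β h => ?_⟩
  · have hpos := cc_pos hΩ hne hn hb β.2
    have h1 : ‖eh hΩ β‖ ^ 2 = 1 := by
      rw [eh, norm_smul, mul_pow, norm_e_sq, Complex.norm_real, Real.norm_eq_abs, sq_abs, inv_pow,
        Real.sq_sqrt hpos.le, inv_mul_cancel₀ hpos.ne']
    have h2 : (0 : ℝ) ≤ ‖eh hΩ β‖ := norm_nonneg _
    nlinarith
  · have h1 := inner_e_ne hΩ hR α.2 β.2 fun h' => h (Subtype.ext h')
    have h2 : ⟪eh hΩ α, eh hΩ β⟫_ℂ = conj (((√(cc Ω α.1))⁻¹ : ℝ) : ℂ) *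
        ⟪α.2.e hΩ, (((√(cc Ω β.1))⁻¹ : ℝ) : ℂ) • β.2.e hΩ⟫_ℂ :=
      inner_smul_left (𝕜 := ℂ) (E := bergman Ω) _ _ _
    have h3 : ⟪α.2.e hΩ, (((√(cc Ω β.1))⁻¹ : ℝ) : ℂ) • β.2.e hΩ⟫_ℂ =
        (((√(cc Ω β.1))⁻¹ : ℝ) : ℂ) * ⟪α.2.e hΩ, β.2.e hΩ⟫_ℂ :=
      inner_smul_right (𝕜 := ℂ) (E := bergman Ω) _ _ _
    change ⟪eh hΩ α, eh hΩ β⟫_ℂ = 0
    rw [h2, h3, h1, mul_zero, mul_zero]

lemma NT_nonneg {Ω : Set (Fin n → ℂ)} (hΩ : IsOpen Ω) (T : bergman Ω →L[ℂ] L2 Ω)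
    (β : Fin n → ℤ) : 0 ≤ NT hΩ T β := by
  unfold NT
  split_ifs
  · exact div_nonneg (by positivity) (integral_nonneg fun z => by positivity)
  · exact le_rfl

/-- Hilbert-Schmidt operators have bounded sums over the monomials. -/
theorem NT_sum {Ω : Set (Fin n → ℂ)} (hΩ : IsOpen Ω) (hne : Ωᶜ.Nonempty) (hn : Ω.Nonempty)
    (hb : Bornology.IsBounded Ω) (hR : ModInv Ω) {T : bergman Ω →L[ℂ] L2 Ω}
    (hT : IsHilbertSchmidt T) : ∃ B, ∀ s : Finset (Fin n → ℤ), ∑ β ∈ s, NT hΩ T β ≤ B := by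
  classical
  obtain ⟨ι, b, hs⟩ := hT
  refine ⟨∑' i, ‖T (b i)‖ ^ 2, fun s => ?_⟩
  have h1 := hs_bound T b hs (eh hΩ) (orthonormal_eh hΩ hne hn hb hR) (s.subtype (InS Ω))
  simp_rw [norm_eh_T hΩ hne hn hb T] at h1
  rw [Finset.sum_subtype_eq_sum_filter (f := NT hΩ T)] at h1
  rw [Finset.sum_filter_of_ne] at h1
  · exact h1
  · intro β _ hβ
    by_contra h
    exact hβ (by rw [NT, dif_neg h])

/-- two open sets on which `|z^γ|²` is separated -/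
lemma exists_sets {Ω : Set (Fin n → ℂ)} (hΩ : IsOpen Ω) (hn : Ω.Nonempty) {γ : Fin n → ℤ}
    (hγ : γ ≠ 0) : ∃ (U V : Set (Fin n → ℂ)) (s t : ℝ), 0 < s ∧ s < t ∧
      (U ⊆ Ω ∧ IsOpen U ∧ U.Nonempty ∧ (∀ z ∈ U, ∀ j, z j ≠ 0) ∧ ∀ z ∈ U, t ≤ ‖mon γ z‖ ^ 2) ∧
      (V ⊆ Ω ∧ IsOpen V ∧ V.Nonempty ∧ (∀ z ∈ V, ∀ j, z j ≠ 0) ∧ ∀ z ∈ V, ‖mon γ z‖ ^ 2 ≤ s) := by
  obtain ⟨i, hi⟩ := Function.ne_iff.mp hγ
  simp only [Pi.zero_apply] at hi
  obtain ⟨p, hpΩ, hp0⟩ : ∃ p ∈ Ω, ∀ j, p j ≠ 0 := by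
    by_contra hcon
    push Not at hcon
    have h1 : volume Ω = 0 := by
      refine measure_mono_null ?_ (ae_iff.mp (ae_ne_zero (n := n)))
      intro z hz
      obtain ⟨j, hj⟩ := hcon z hz
      simp only [Set.mem_ofPred_eq, not_forall, not_not]
      exact ⟨j, hj⟩
    exact (hΩ.measure_pos volume hn).ne' h1
  set W : Set (Fin n → ℂ) := Ω ∩ {z | ∀ j, z j ≠ 0} with hW
  have hWo : IsOpen W := hΩ.inter isOpen_ne
  have hcon : ContinuousOn (fun z => ‖mon γ z‖ ^ 2) W := by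
    intro z hz
    exact (((differentiableAt_mon γ hz.2).continuousAt.norm).pow 2).continuousWithinAt
  -- a nearby point with a different value
  obtain ⟨q, hqW, hq⟩ : ∃ q ∈ W, ‖mon γ q‖ ^ 2 ≠ ‖mon γ p‖ ^ 2 := by
    have hc : Continuous fun l : ℝ => Function.update p i ((l : ℂ) * p i) := by
      refine continuous_const.update i ?_
      fun_prop
    have h1 : Function.update p i (((1 : ℝ) : ℂ) * p i) = p := by simp
    have h2 : ∀ᶠ l : ℝ in 𝓝 1, Function.update p i ((l : ℂ) * p i) ∈ W := by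
      refine hc.continuousAt.eventually_mem ?_
      rw [h1]
      exact hWo.mem_nhds ⟨hpΩ, hp0⟩
    obtain ⟨δ, hδ, h3⟩ := Metric.eventually_nhds_iff.mp h2
    set l : ℝ := 1 + δ / 2 with hl
    have hl1 : 1 < l := by rw [hl]; linarith
    have h4 : Function.update p i ((l : ℂ) * p i) ∈ W := by
      apply h3
      rw [Real.dist_eq, hl, add_sub_cancel_left, abs_of_pos (by positivity)]
      linarith
    refine ⟨_, h4, ?_⟩
    have h5 : mon γ (Function.update p i ((l : ℂ) * p i)) = (l : ℂ) ^ γ i * mon γ p := by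
      unfold mon
      rw [← Finset.mul_prod_erase _ _ (Finset.mem_univ i),
        ← Finset.mul_prod_erase _ (fun j => p j ^ γ j) (Finset.mem_univ i)]
      rw [Function.update_self, mul_zpow, mul_assoc]
      congr 2
      refine Finset.prod_congr rfl fun j hj => ?_
      rw [Function.update_of_ne (Finset.ne_of_mem_erase hj)]
    have h6 : ‖mon γ p‖ ≠ 0 := norm_ne_zero_iff.mpr (mon_ne γ hp0)
    rw [h5, norm_mul, norm_zpow, Complex.norm_real, Real.norm_of_nonneg (by linarith), mul_pow]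
    intro h7
    have h8 : (l ^ γ i) ^ 2 = 1 := by
      have := mul_right_cancel₀ (pow_ne_zero 2 h6) (h7.trans (one_mul _).symm)
      exact this
    have h9 : l ^ γ i = 1 := by
      have h10 : 0 < l ^ γ i := zpow_pos (by linarith) _
      nlinarith
    rw [zpow_eq_one_iff_right₀ (by linarith) hl1.ne'] at h9
    exact hi h9
  -- order the two points
  obtain ⟨u, v, hu, hv, huv⟩ : ∃ u v, u ∈ W ∧ v ∈ W ∧ ‖mon γ v‖ ^ 2 < ‖mon γ u‖ ^ 2 := by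
    rcases lt_or_gt_of_ne hq with h | h
    · exact ⟨p, q, ⟨hpΩ, hp0⟩, hqW, h⟩
    · exact ⟨q, p, hqW, ⟨hpΩ, hp0⟩, h⟩
  obtain ⟨s, hs1, hs2⟩ := exists_between huv
  obtain ⟨t, ht1, ht2⟩ := exists_between hs2
  refine ⟨W ∩ (fun z => ‖mon γ z‖ ^ 2) ⁻¹' Set.Ioi t, W ∩ (fun z => ‖mon γ z‖ ^ 2) ⁻¹' Set.Iio s,
    s, t, ?_, ht1, ⟨fun z hz => hz.1.1, hcon.isOpen_inter_preimage hWo isOpen_Ioi, ⟨u, hu, ht2⟩,
      fun z hz => hz.1.2, fun z hz => le_of_lt hz.2⟩,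
    ⟨fun z hz => hz.1.1, hcon.isOpen_inter_preimage hWo isOpen_Iio, ⟨v, hv, hs1⟩,
      fun z hz => hz.1.2, fun z hz => le_of_lt hz.2⟩⟩
  exact lt_of_le_of_lt (by positivity) hs1

lemma norm_mon_neg (γ : Fin n → ℤ) (z : Fin n → ℂ) : ‖mon (-γ) z‖ = ‖mon γ z‖⁻¹ := by
  simp only [mon, Pi.neg_apply, zpow_neg, Finset.prod_inv_distrib, norm_inv]

end Pool.Agent.N287.HS
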