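import Pool.Agent.N287.HS.Main4

set_option autoImplicit false

/-! The conclusion: a nonzero weight component contradicts the Hilbert-Schmidt property. -/

namespace Pool.Agent.N287.HS

open MeasureTheory Filter Topology ComplexConjugate Metric
open scoped InnerProductSpace
open Pool.Agent.Helper853.Bk

variable {n : ℕ}

section claims

variable {Ω : Set (Fin n → ℂ)} (hΩ : IsOpen Ω) (hn : Ω.Nonempty)
  (hne : Ωᶜ.Nonempty) (hb : Bornology.IsBounded Ω) {γ : Fin n → ℤ}

include hΩ hn hne hb in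
/-- going up, the ratio eventually exceeds `r` -/
theorem up_claim {U : Set (Fin n → ℂ)} {t r : ℝ} (hr : 0 < r) (hrt : r < t) (hU : U ⊆ Ω)
    (hUo : IsOpen U) (hUn : U.Nonempty) (hU0 : ∀ z ∈ U, ∀ j, z j ≠ 0)
    (hUt : ∀ z ∈ U, t ≤ ‖mon γ z‖ ^ 2) {β : Fin n → ℤ} (hS : ∀ k : ℕ, InS Ω (β + k • γ)) :
    ∃ K : ℕ, r ≤ rho Ω γ (β + K • γ) := by
  by_contra hcon
  push Not at hcon
  obtain ⟨c, hc, hlow⟩ := lower hU hUo hUn hU0 (hr.trans hrt).le hUt hS
  refine growth (x := fun k : ℕ => cc Ω (β + k • γ)) hr hrt hc (fun k => ?_) hlow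
  have h1 := hcon (k + 1)
  have h2 : β + (k + 1) • γ - γ = β + k • γ := by
    rw [succ_nsmul]; abel
  rw [rho, h2, if_pos (hS k), div_lt_iff₀ (cc_pos hΩ hne hn hb (hS k))] at h1
  exact h1.le

include hΩ hn hne hb in
/-- going down, the ratio is somewhere at most `r` -/
theorem down_claim {V : Set (Fin n → ℂ)} {s r : ℝ} (hs : 0 < s) (hsr : s < r) (hV : V ⊆ Ω)
    (hVo : IsOpen V) (hVn : V.Nonempty) (hV0 : ∀ z ∈ V, ∀ j, z j ≠ 0)
    (hVs : ∀ z ∈ V, ‖mon γ z‖ ^ 2 ≤ s) {α : Fin n → ℤ} (hα : InS Ω α) :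
    ∃ k : ℕ, InS Ω (α - k • γ) ∧ rho Ω γ (α - k • γ) ≤ r := by
  by_contra hcon
  push Not at hcon
  have hr : 0 < r := hs.trans hsr
  have hS : ∀ k : ℕ, InS Ω (α - k • γ) := by
    intro k
    induction k with
    | zero => simpa using hα
    | succ k ih =>
      by_contra hno
      have h1 := hcon k ih
      have h2 : α - k • γ - γ = α - (k + 1) • γ := by
        rw [succ_nsmul]; abel
      rw [rho, h2, if_neg hno] at h1
      linarith
  have hS' : ∀ k : ℕ, InS Ω (α + k • (-γ)) := by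
    intro k
    rw [smul_neg, ← sub_eq_add_neg]
    exact hS k
  have hVt : ∀ z ∈ V, s⁻¹ ≤ ‖mon (-γ) z‖ ^ 2 := by
    intro z hz
    have h1 : 0 < ‖mon γ z‖ := norm_pos_iff.mpr (mon_ne γ (hV0 z hz))
    rw [norm_mon_neg, inv_pow]
    exact inv_anti₀ (by positivity) (hVs z hz)
  obtain ⟨c, hc, hlow⟩ := lower hV hVo hVn hV0 (inv_pos.mpr hs).le hVt hS'
  refine growth (x := fun k : ℕ => cc Ω (α + k • (-γ))) (inv_pos.mpr hr)
    (inv_strictAnti₀ hs hsr) hc (fun k => ?_) hlow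
  have h1 := hcon k (hS k)
  have h2 : α - k • γ - γ = α - (k + 1) • γ := by
    rw [succ_nsmul]; abel
  rw [rho, h2, if_pos (hS (k + 1)), lt_div_iff₀ (cc_pos hΩ hne hn hb (hS (k + 1)))] at h1
  simp only [smul_neg, ← sub_eq_add_neg]
  rw [inv_mul_eq_div, le_div_iff₀ hr, mul_comm]
  exact h1.le

/-- powers of a coordinate are in the Bergman space -/
lemma inS_coord {Ω : Set (Fin n → ℂ)} (hb : Bornology.IsBounded Ω) (hΩ : IsOpen Ω)
    (i : Fin n) (j : ℕ) : InS Ω (Pi.single i (j : ℤ)) := by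
  classical
  have hmon : ∀ z : Fin n → ℂ, mon (Pi.single i (j : ℤ)) z = z i ^ j := by
    intro z
    unfold mon
    rw [Finset.prod_eq_single i]
    · rw [Pi.single_eq_same, zpow_natCast]
    · intro l _ hl
      rw [Pi.single_eq_of_ne hl, zpow_zero]
    · intro h; exact absurd (Finset.mem_univ i) h
  refine ⟨?_, fun z => z i ^ j, ?_, fun z _ _ => (hmon z).symm⟩
  · obtain ⟨R, hR⟩ := hb.exists_norm_le
    have hfin : IsFiniteMeasure ((volume : Measure (Fin n → ℂ)).restrict Ω) :=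
      ⟨by rw [Measure.restrict_apply_univ]; exact hb.measure_lt_top⟩
    refine MemLp.of_bound (measurable_mon _).aestronglyMeasurable (R ^ j) ?_
    filter_upwards [ae_restrict_mem hΩ.measurableSet] with z hz
    rw [hmon, norm_pow]
    exact pow_le_pow_left₀ (norm_nonneg _) ((norm_le_pi_norm z i).trans (hR z hz)) j
  · intro z _
    have h1 : DifferentiableAt ℂ (fun z : Fin n → ℂ => z i) z := differentiableAt_apply i z
    exact (h1.pow j).differentiableWithinAt

end claims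

/-- All the components of `f` of nonzero weight vanish. -/
theorem coeff_zero (h2n : 2 ≤ n) {Ω : Set (Fin n → ℂ)} (hΩ : IsOpen Ω) (hc : IsPreconnected Ω)
    (hn : Ω.Nonempty) (hne : Ωᶜ.Nonempty) (hb : Bornology.IsBounded Ω)
    (hR : ModInv Ω) {f : (Fin n → ℂ) → ℂ} (hf : DifferentiableOn ℂ f Ω)
    (hD : Dense (hankelDom Ω fun z => conj (f z)))
    {T : bergman Ω →L[ℂ] L2 Ω}
    (hT : ∀ (g : bergman Ω) (hg : g ∈ hankelDom Ω fun z => conj (f z)),
      T g = hankel Ω (fun z => conj (f z)) g hg)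
    (hTHS : IsHilbertSchmidt T)
    {γ : Fin n → ℤ} (hγ : γ ≠ 0) {a : ℂ}
    (ha : ∀ z ∈ Ω, (∀ j, z j ≠ 0) → comp γ f z = a * mon γ z) : a = 0 := by
  by_contra ha0
  obtain ⟨U, V, s, t, hs, hst, ⟨hU, hUo, hUn, hU0, hUt⟩, ⟨hV, hVo, hVn, hV0, hVs⟩⟩ :=
    exists_sets hΩ hn hγ
  obtain ⟨r1, h1, h2⟩ := exists_between hst
  obtain ⟨r2, h3, h4⟩ := exists_between h2
  obtain ⟨B, hB⟩ := NT_sum hΩ hne hn hb hR hTHS
  -- two coordinates
  obtain ⟨i0, hi0⟩ := Function.ne_iff.mp hγ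
  simp only [Pi.zero_apply] at hi0
  obtain ⟨i1, hi1⟩ : ∃ i1 : Fin n, i1 ≠ i0 := by
    have : Nontrivial (Fin n) := Fin.nontrivial_iff_two_le.mpr h2n
    exact exists_ne i0
  -- the starting exponents
  have hα : ∀ j : ℕ, InS Ω (Pi.single i1 (j : ℤ)) := fun j => inS_coord hb hΩ i1 j
  have hdown := fun j => down_claim hΩ hn hne hb hs h1 hV hVo hVn hV0 hVs (hα j)
  choose k1 hk1S hk1r using hdown
  have hup := fun j => up_claim hΩ hn hne hb (hs.trans (h1.trans h3)) h4 hU hUo hUn hU0 hUt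
    (fun k => inS_add_nsmul hΩ hc hn hne hb hR hf hD hT ha0 ha (hk1S j) k)
  choose K hK using hup
  set β : ℕ → Fin n → ℤ := fun j => Pi.single i1 (j : ℤ) - k1 j • γ with hβ
  have hline : ∀ j, ‖a‖ ^ 2 * (r2 - r1) ≤
      ∑ k ∈ Finset.range (K j), NT hΩ T (β j + k • γ) := by
    intro j
    refine le_trans ?_ (telescope hΩ hc hn hne hb hR hf hD hT ha0 ha (hk1S j) (K j))
    have := hK j
    have := hk1r j
    gcongr
  -- the points on the different lines are different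
  have hinj : ∀ j k j' k' : ℕ, β j + k • γ = β j' + k' • γ → j = j' ∧ k = k' := by
    intro j k j' k' h
    have e0 := congrFun h i0
    have e1 := congrFun h i1
    simp only [hβ, Pi.add_apply, Pi.sub_apply, Pi.smul_apply, Pi.single_eq_same,
      Pi.single_eq_of_ne hi1.symm] at e0 e1
    simp only [nsmul_eq_mul] at e0 e1
    have e2 : ((k : ℤ) - k1 j) = (k' : ℤ) - k1 j' := by
      have : (((k : ℤ) - k1 j) - ((k' : ℤ) - k1 j')) * γ i0 = 0 := by linear_combination e0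
      rcases mul_eq_zero.mp this with h | h
      · exact sub_eq_zero.mp h
      · exact absurd h hi0
    have e3 : (j : ℤ) = j' := by linear_combination e1 - γ i1 * e2
    have e4 : j = j' := by exact_mod_cast e3
    subst e4
    refine ⟨rfl, ?_⟩
    have : (k : ℤ) = k' := by linarith
    exact_mod_cast this
  have hsum : ∀ N : ℕ, N * (‖a‖ ^ 2 * (r2 - r1)) ≤ B := by
    intro N
    classical
    set S : Finset (Σ _ : ℕ, ℕ) := (Finset.range N).sigma fun j => Finset.range (K j) with hS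
    have h5 := hB (S.image fun p => β p.1 + p.2 • γ)
    rw [Finset.sum_image, hS, Finset.sum_sigma] at h5
    · refine le_trans ?_ h5
      have h6 := Finset.sum_le_sum fun j (_ : j ∈ Finset.range N) => hline j
      rw [Finset.sum_const, Finset.card_range, nsmul_eq_mul] at h6
      exact h6
    · rintro ⟨j, k⟩ _ ⟨j', k'⟩ _ h
      obtain ⟨rfl, rfl⟩ := hinj j k j' k' h
      rfl
  have ha' : 0 < ‖a‖ := norm_pos_iff.mpr ha0
  have hpos : 0 < ‖a‖ ^ 2 * (r2 - r1) := mul_pos (by positivity) (by linarith)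
  obtain ⟨N, hN⟩ := exists_nat_gt (B / (‖a‖ ^ 2 * (r2 - r1)))
  rw [div_lt_iff₀ hpos] at hN
  exact absurd (hsum N) (not_le.mpr hN)

/-- The symbol is constant. -/
theorem symbol_const (h2n : 2 ≤ n) {Ω : Set (Fin n → ℂ)} (hΩ : IsOpen Ω) (hc : IsPreconnected Ω)
    (hn : Ω.Nonempty) (hne : Ωᶜ.Nonempty) (hb : Bornology.IsBounded Ω)
    (hR : ModInv Ω) {f : (Fin n → ℂ) → ℂ} (hf : DifferentiableOn ℂ f Ω)
    (hD : Dense (hankelDom Ω fun z => conj (f z)))
    {T : bergman Ω →L[ℂ] L2 Ω}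
    (hT : ∀ (g : bergman Ω) (hg : g ∈ hankelDom Ω fun z => conj (f z)),
      T g = hankel Ω (fun z => conj (f z)) g hg)
    (hTHS : IsHilbertSchmidt T) : ∃ c, ∀ z ∈ Ω, f z = c := by
  obtain ⟨c, hcc⟩ := comp_eq hΩ hc hR hn 0 hf
  have h1 : ∀ z ∈ Ω, (∀ j, z j ≠ 0) → f z = c := by
    intro z hz h0
    have hu := continuous_orbit hR hf.continuousOn hz
    have h2 := const_of_coeff hu (fun k hk => by
      obtain ⟨a, ha⟩ := comp_eq hΩ hc hR hn k hf
      have h3 := coeff_zero h2n hΩ hc hn hne hb hR hf hD hT hTHS hk ha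
      have h4 := ha z hz h0
      rw [h3, zero_mul] at h4
      exact h4) 0
    rw [rt_zero] at h2
    rw [h2]
    have h5 := hcc z hz h0
    rw [mon_zero, mul_one] at h5
    rw [← h5, comp]
    refine integral_congr_ae (Filter.Eventually.of_forall fun t => ?_)
    simp [UnitAddTorus.mFourier_zero]
  refine ⟨c, fun z hz => ?_⟩
  obtain ⟨p, hpΩ, hp0⟩ : ∃ p ∈ Ω, ∀ j, p j ≠ 0 := by
    by_contra hcon
    push Not at hcon
    have h1 : volume Ω = 0 := by
      refine measure_mono_null ?_ (ae_iff.mp (ae_ne_zero (n := n)))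
      intro z hz
      obtain ⟨j, hj⟩ := hcon z hz
      simp only [Set.mem_ofPred_eq, not_forall, not_not]
      exact ⟨j, hj⟩
    exact (hΩ.measure_pos volume hn).ne' h1
  have h6 := ident hΩ hc (H := fun z => f z - c) (hf.sub_const c) hpΩ (by
    filter_upwards [(hΩ.inter isOpen_ne).mem_nhds ⟨hpΩ, hp0⟩] with w hw
    rw [h1 w hw.1 hw.2, sub_self]) z hz
  exact sub_eq_zero.mp h6

/-- Hankel operators with constant symbols vanish. -/
theorem hankel_const {Ω : Set (Fin n → ℂ)} (hΩ : IsOpen Ω) {f : (Fin n → ℂ) → ℂ} {c : ℂ}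
    (hc : ∀ z ∈ Ω, f z = c) (g : bergman Ω)
    (hg : g ∈ hankelDom Ω fun z => conj (f z)) : hankel Ω (fun z => conj (f z)) g hg = 0 := by
  have h1 : MemLp.toLp (fun z => conj (f z) * (g : L2 Ω) z) hg = conj c • (g : L2 Ω) := by
    refine Lp.ext ?_
    filter_upwards [MemLp.coeFn_toLp hg, Lp.coeFn_smul (conj c) (g : L2 Ω),
      ae_restrict_mem hΩ.measurableSet] with z h1 h2 h3
    rw [h1, h2, hc z h3, Pi.smul_apply, smul_eq_mul]
  have h2 : MemLp.toLp (fun z => conj (f z) * (g : L2 Ω) z) hg ∈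
      (bergman Ω).topologicalClosure := by
    rw [h1]
    exact Submodule.le_topologicalClosure _ ((bergman Ω).smul_mem _ g.2)
  rw [hankel, bergmanProj, Submodule.starProjection_eq_self_iff.mpr h2, sub_self]

/-- For `Ω` connected, the two formulations of being Reinhardt agree. -/
lemma modInv_of_isReinhardt {Ω : Set (Fin n → ℂ)} (h : IsReinhardt Ω) : ModInv Ω := by
  intro z hz w hw
  have h1 : ∀ j, ∃ θ : ℝ, Complex.exp (Complex.I * θ) * z j = w j := by
    intro j
    rcases eq_or_ne (z j) 0 with h0 | h0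
    · refine ⟨0, ?_⟩
      have := hw j
      rw [h0, norm_zero, norm_eq_zero] at this
      rw [h0, this, mul_zero]
    · refine ⟨Complex.arg (w j / z j), ?_⟩
      have h2 : ‖w j / z j‖ = 1 := by
        rw [norm_div, hw j, div_self (norm_ne_zero_iff.mpr h0)]
      have h3 := Complex.norm_mul_exp_arg_mul_I (w j / z j)
      rw [h2, Complex.ofReal_one, one_mul] at h3
      rw [mul_comm Complex.I, h3, div_mul_cancel₀ _ h0]
  choose θ hθ using h1
  have h2 := h z hz θ
  have h3 : (fun j => Complex.exp (Complex.I * θ j) * z j) = w := funext hθ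
  rwa [h3] at h2

lemma compl_nonempty (h2n : 2 ≤ n) {Ω : Set (Fin n → ℂ)} (hb : Bornology.IsBounded Ω) :
    Ωᶜ.Nonempty := by
  have : Nonempty (Fin n) := ⟨⟨0, by omega⟩⟩
  rw [Set.nonempty_compl]
  rintro rfl
  exact NormedSpace.unbounded_univ ℂ (Fin n → ℂ) hb

end Pool.Agent.N287.HS
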