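import Mathlib

set_option autoImplicit false

/-! Rotations of the coordinates, Laurent monomials and an exhaustion of a bounded Reinhardt domain
minus the coordinate hyperplanes by compact sets. -/

namespace Pool.Agent.N287.HS

open MeasureTheory Filter Topology ComplexConjugate

variable {n : ℕ}

/-- invariance of a set under changes of the arguments of the coordinates -/
def ModInv (Ω : Set (Fin n → ℂ)) : Prop :=
  ∀ z ∈ Ω, ∀ w : Fin n → ℂ, (∀ j, ‖w j‖ = ‖z j‖) → w ∈ Ω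

/-- rotation by an element of the torus -/
noncomputable def rt (t : UnitAddTorus (Fin n)) (z : Fin n → ℂ) : Fin n → ℂ :=
  fun j => fourier 1 (t j) * z j

/-- Laurent monomials -/
noncomputable def mon (β : Fin n → ℤ) (z : Fin n → ℂ) : ℂ := ∏ j, z j ^ β j

lemma norm_fourier (k : ℤ) (x : UnitAddCircle) : ‖(fourier k x : ℂ)‖ = 1 := by
  rw [fourier_apply]; exact Circle.norm_coe _

lemma rt_norm (t : UnitAddTorus (Fin n)) (z : Fin n → ℂ) (j : Fin n) : ‖rt t z j‖ = ‖z j‖ := by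
  rw [rt, norm_mul, norm_fourier, one_mul]

lemma fourier_one_zpow (x : UnitAddCircle) (k : ℤ) : (fourier 1 x : ℂ) ^ k = fourier k x := by
  rw [fourier_apply, fourier_apply, one_smul, AddCircle.toCircle_zsmul]
  norm_cast

lemma mon_rt (β : Fin n → ℤ) (t : UnitAddTorus (Fin n)) (z : Fin n → ℂ) :
    mon β (rt t z) = UnitAddTorus.mFourier β t * mon β z := by
  simp only [mon, rt, mul_zpow, Finset.prod_mul_distrib, fourier_one_zpow]
  rfl

lemma mon_add (β γ : Fin n → ℤ) {z : Fin n → ℂ} (hz : ∀ j, z j ≠ 0) :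
    mon (β + γ) z = mon β z * mon γ z := by
  simp only [mon, Pi.add_apply, ← Finset.prod_mul_distrib]
  exact Finset.prod_congr rfl fun j _ => zpow_add₀ (hz j) _ _

lemma mon_ne (β : Fin n → ℤ) {z : Fin n → ℂ} (hz : ∀ j, z j ≠ 0) : mon β z ≠ 0 :=
  Finset.prod_ne_zero_iff.mpr fun j _ => zpow_ne_zero _ (hz j)

lemma mon_zero (z : Fin n → ℂ) : mon (0 : Fin n → ℤ) z = 1 := by simp [mon]

lemma rt_dist (t : UnitAddTorus (Fin n)) (z w : Fin n → ℂ) :
    dist (rt t z) (rt t w) = dist z w := by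
  have h : rt t z - rt t w = rt t (z - w) := by
    funext j; simp [rt, mul_sub]
  rw [dist_eq_norm, dist_eq_norm, h, Pi.norm_def, Pi.norm_def]
  congr 2
  funext j
  exact NNReal.coe_injective (rt_norm t (z - w) j)

lemma rt_neg_rt (t : UnitAddTorus (Fin n)) (z : Fin n → ℂ) : rt (-t) (rt t z) = z := by
  funext j
  simp only [rt, Pi.neg_apply]
  rw [← mul_assoc, ← fourier_one_zpow, zpow_one]
  have h : (fourier 1 (-t j) : ℂ) * fourier 1 (t j) = 1 := by
    rw [fourier_apply, fourier_apply, one_smul, one_smul, AddCircle.toCircle_neg]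
    norm_cast
    simp
  rw [h, one_mul]

lemma rt_rt_neg (t : UnitAddTorus (Fin n)) (z : Fin n → ℂ) : rt t (rt (-t) z) = z := by
  have := rt_neg_rt (-t) z
  rwa [neg_neg] at this

lemma continuous_rt : Continuous fun p : UnitAddTorus (Fin n) × (Fin n → ℂ) => rt p.1 p.2 := by
  unfold rt
  fun_prop

lemma measurePreserving_rt (t : UnitAddTorus (Fin n)) :
    MeasurePreserving (rt t) (volume : Measure (Fin n → ℂ)) volume := by
  have h1 : ∀ j, MeasurePreserving (fun z : ℂ => (fourier 1 (t j) : ℂ) * z) volume volume := by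
    intro j
    have := (rotation (AddCircle.toCircle (t j))).measurePreserving
    have e : (fun z : ℂ => (fourier 1 (t j) : ℂ) * z) = rotation (AddCircle.toCircle (t j)) := by
      funext z
      rw [rotation_apply, fourier_apply, one_smul]
    rw [e]
    exact this
  exact volume_preserving_pi h1

lemma ModInv.rt_mem {Ω : Set (Fin n → ℂ)} (hR : ModInv Ω) (t : UnitAddTorus (Fin n))
    {z : Fin n → ℂ} : rt t z ∈ Ω ↔ z ∈ Ω :=
  ⟨fun h => hR _ h _ fun j => (rt_norm t z j).symm, fun h => hR _ h _ fun j => rt_norm t z j⟩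

/-- the exhaustion by compact sets -/
def KK (Ω : Set (Fin n → ℂ)) (m : ℕ) : Set (Fin n → ℂ) :=
  {z | (∀ j, (1 : ℝ) / (m + 1) ≤ ‖z j‖) ∧ (1 : ℝ) / (m + 1) ≤ Metric.infDist z Ωᶜ}

lemma isClosed_KK (Ω : Set (Fin n → ℂ)) (m : ℕ) : IsClosed (KK Ω m) := by
  have h1 : KK Ω m = (⋂ j, {z : Fin n → ℂ | (1 : ℝ) / (m + 1) ≤ ‖z j‖}) ∩
      {z | (1 : ℝ) / (m + 1) ≤ Metric.infDist z Ωᶜ} := by
    ext z; simp [KK]
  rw [h1]
  refine IsClosed.inter (isClosed_iInter fun j => ?_) ?_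
  · exact isClosed_le continuous_const (by fun_prop)
  · exact isClosed_le continuous_const (Metric.continuous_infDist_pt _)

lemma KK_pos {Ω : Set (Fin n → ℂ)} {m : ℕ} {z : Fin n → ℂ} (hz : z ∈ KK Ω m) (j : Fin n) :
    z j ≠ 0 := by
  have h := hz.1 j
  have h2 : (0 : ℝ) < 1 / (m + 1) := by positivity
  exact norm_pos_iff.mp (h2.trans_le h)

lemma KK_sub {Ω : Set (Fin n → ℂ)} {m : ℕ} : KK Ω m ⊆ Ω := by
  intro z hz
  by_contra h
  have h1 : Metric.infDist z Ωᶜ = 0 := Metric.infDist_zero_of_mem h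
  have h2 : (0 : ℝ) < 1 / (m + 1) := by positivity
  exact absurd hz.2 (by rw [h1]; exact not_le.mpr h2)

lemma isCompact_KK {Ω : Set (Fin n → ℂ)} (hb : Bornology.IsBounded Ω) (m : ℕ) :
    IsCompact (KK Ω m) :=
  Metric.isCompact_of_isClosed_isBounded (isClosed_KK Ω m) (hb.subset KK_sub)

lemma infDist_rt {Ω : Set (Fin n → ℂ)} (hR : ModInv Ω) (t : UnitAddTorus (Fin n))
    (z : Fin n → ℂ) : Metric.infDist (rt t z) Ωᶜ = Metric.infDist z Ωᶜ := by
  have himg : rt t '' Ωᶜ = Ωᶜ := by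
    ext w
    constructor
    · rintro ⟨v, hv, rfl⟩
      exact fun h => hv ((hR.rt_mem t).mp h)
    · intro hw
      exact ⟨rt (-t) w, fun h => hw ((hR.rt_mem (-t)).mp h), rt_rt_neg t w⟩
  have hiso : Isometry (rt t : (Fin n → ℂ) → (Fin n → ℂ)) := Isometry.of_dist_eq (rt_dist t)
  conv_lhs => rw [← himg]
  exact Metric.infDist_image hiso

lemma rt_mem_KK {Ω : Set (Fin n → ℂ)} (hR : ModInv Ω) (t : UnitAddTorus (Fin n))
    {z : Fin n → ℂ} {m : ℕ} : rt t z ∈ KK Ω m ↔ z ∈ KK Ω m := by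
  simp only [KK, Set.mem_ofPred_eq, rt_norm, infDist_rt hR]

lemma ae_ne_zero : ∀ᵐ z : Fin n → ℂ, ∀ j, z j ≠ 0 := by
  rw [ae_all_iff]
  intro j
  rw [ae_iff]
  have := Measure.pi_hyperplane (fun _ : Fin n => (volume : Measure ℂ)) j 0
  simp only [ne_eq, not_not]
  exact this

lemma exists_KK {Ω : Set (Fin n → ℂ)} (hΩ : IsOpen Ω) (hne : Ωᶜ.Nonempty) {z : Fin n → ℂ}
    (hz : z ∈ Ω) (h0 : ∀ j, z j ≠ 0) : ∀ᶠ m in atTop, z ∈ KK Ω m := by
  have h1 : 0 < Metric.infDist z Ωᶜ := by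
    rw [← hΩ.isClosed_compl.notMem_iff_infDist_pos hne]
    exact fun h => h hz
  have hl : Tendsto (fun m : ℕ => (1 : ℝ) / (m + 1)) atTop (𝓝 0) :=
    tendsto_one_div_add_atTop_nhds_zero_nat
  have h2 : ∀ᶠ m : ℕ in atTop, (1 : ℝ) / (m + 1) < Metric.infDist z Ωᶜ := hl.eventually_lt_const h1
  have h3 : ∀ᶠ m : ℕ in atTop, ∀ j, (1 : ℝ) / (m + 1) < ‖z j‖ :=
    eventually_all.mpr fun j => hl.eventually_lt_const (norm_pos_iff.mpr (h0 j))
  filter_upwards [h2, h3] with m a b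
  exact ⟨fun j => (b j).le, a.le⟩

lemma aecover_KK {Ω : Set (Fin n → ℂ)} (hΩ : IsOpen Ω) (hne : Ωᶜ.Nonempty) :
    AECover (volume.restrict Ω) atTop (KK Ω) where
  ae_eventually_mem := by
    filter_upwards [ae_restrict_of_ae (ae_ne_zero (n := n)), ae_restrict_mem hΩ.measurableSet]
      with z h0 hz
    exact exists_KK hΩ hne hz h0
  measurableSet m := (isClosed_KK Ω m).measurableSet

lemma continuousOn_mon {Ω : Set (Fin n → ℂ)} {m : ℕ} (β : Fin n → ℤ) :
    ContinuousOn (mon β) (KK Ω m) := by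
  unfold mon
  refine continuousOn_finsetProd _ fun j _ => ?_
  intro z hz
  exact ((continuous_apply j).continuousAt.zpow₀ _ (Or.inl (KK_pos hz j))).continuousWithinAt

lemma differentiableAt_prod {ι : Type*} (s : Finset ι) (f : ι → (Fin n → ℂ) → ℂ) (z : Fin n → ℂ)
    (h : ∀ i ∈ s, DifferentiableAt ℂ (f i) z) :
    DifferentiableAt ℂ (fun z => ∏ i ∈ s, f i z) z := by
  classical
  induction s using Finset.induction_on with
  | empty => simp
  | insert a s ha ih =>
    have e : (fun z => ∏ i ∈ insert a s, f i z) = fun z => f a z * ∏ i ∈ s, f i z := by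
      funext z
      rw [Finset.prod_insert ha]
    rw [e]
    exact (h a (Finset.mem_insert_self _ _)).fun_mul
      (ih fun i hi => h i (Finset.mem_insert_of_mem hi))

lemma differentiableAt_mon (β : Fin n → ℤ) {z : Fin n → ℂ} (hz : ∀ j, z j ≠ 0) :
    DifferentiableAt ℂ (mon β) z := by
  have h : mon β = fun z : Fin n → ℂ => ∏ j, z j ^ β j := rfl
  rw [h]
  refine differentiableAt_prod _ (fun j (z : Fin n → ℂ) => z j ^ β j) z fun j _ => ?_
  exact (differentiableAt_apply j z).zpow (Or.inl (hz j))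

lemma isOpen_ne : IsOpen {z : Fin n → ℂ | ∀ j, z j ≠ 0} := by
  have : {z : Fin n → ℂ | ∀ j, z j ≠ 0} = ⋂ j, {z | z j ≠ 0} := by ext; simp
  rw [this]
  exact isOpen_iInter_of_finite fun j => isOpen_ne_fun (continuous_apply j) continuous_const

end Pool.Agent.N287.HS
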